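import Pool.Agent.H7R2.LG.Defs

set_option autoImplicit false

/-! Task E0: the numerical bounds for the orders of the quotient groups. -/

namespace Pool.Agent.H7R2.LG

open Matrix Polynomial

theorem E0_root {K : Type} [Field K] [Finite K] (p : K[X]) (hp : p ≠ 0) (P : K → Prop)
    (h : ∀ y, P y → p.eval y = 0) : Nat.card {y : K // P y} ≤ p.natDegree := by
  classical
  have h1 : Nat.card {y : K // P y} ≤ Nat.card (p.roots.toFinset : Finset K) := by
    apply Nat.card_le_card_of_injective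
      (fun y : {y : K // P y} => (⟨y.1, by
        rw [Multiset.mem_toFinset, mem_roots hp]; exact h y.1 y.2⟩ : (p.roots.toFinset : Finset K)))
    intro a b hab
    apply Subtype.ext
    exact congrArg (fun z : (p.roots.toFinset : Finset K) => (z : K)) hab
  refine h1.trans ?_
  rw [Nat.card_eq_fintype_card, Fintype.card_coe]
  exact (Multiset.toFinset_card_le _).trans (card_roots' p)

theorem E0_pow {K : Type} [Field K] [Finite K] (n : ℕ) (hn : 0 < n) (P : K → Prop)
    (h : ∀ y, P y → y ^ n = 1) : Nat.card {y : K // P y} ≤ n := by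
  have h1 := E0_root (X ^ n - C (1 : K)) (X_pow_sub_C_ne_zero hn 1) P (fun y hy => by
    rw [eval_sub, eval_pow, eval_X, eval_C, h y hy, sub_self])
  rwa [natDegree_X_pow_sub_C] at h1

theorem E0_iter {K : Type} [Field K] (q : ℕ) (σ : K →+* K) (hσ : ∀ a, σ a = a ^ q) (j : ℕ)
    (y : K) : σ^[j] y = y ^ (q ^ j) := by
  induction j with
  | zero => simp
  | succ j ih => rw [Function.iterate_succ_apply', ih, hσ, ← pow_mul, ← pow_succ]

theorem E0_prod {K : Type} [Field K] (q : ℕ) (σ : K →+* K) (hσ : ∀ a, σ a = a ^ q) (d : ℕ)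
    (y : K) : ∏ j ∈ Finset.range d, σ^[j] y = y ^ (∑ j ∈ Finset.range d, q ^ j) := by
  rw [← Finset.prod_pow_eq_pow_sum]
  exact Finset.prod_congr rfl fun j _ => E0_iter q σ hσ j y

theorem E0_bound (f : ℕ → ℕ) (A q a b d : ℕ) (hq : 0 < q) (_hd : 0 < d) (hba : b ≤ a)
    (h0 : f 0 ≤ A) (h1 : ∀ i, 1 ≤ i → d ∣ i → f i ≤ q ^ (a - b))
    (h2 : ∀ i, 1 ≤ i → f i ≤ q ^ a) (k : ℕ) :
    ∏ i ∈ Finset.range (k + 1), f i ≤ A * q ^ (a * k - b * (k / d)) := by
  induction k with
  | zero => simpa using h0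
  | succ k ih =>
    rw [Finset.prod_range_succ]
    have hkd : b * (k / d) ≤ a * k := by
      calc b * (k / d) ≤ a * (k / d) := Nat.mul_le_mul_right _ hba
        _ ≤ a * k := Nat.mul_le_mul_left _ (Nat.div_le_self _ _)
    by_cases hdv : d ∣ k + 1
    · have h3 := h1 (k + 1) (by omega) hdv
      have h4 : (k + 1) / d = k / d + 1 := Nat.succ_div_of_dvd hdv
      refine (Nat.mul_le_mul ih h3).trans ?_
      rw [mul_assoc, ← pow_add]
      apply Nat.mul_le_mul_left
      apply Nat.pow_le_pow_right hq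
      rw [h4, mul_add, mul_add]
      omega
    · have h3 := h2 (k + 1) (by omega)
      have h4 : (k + 1) / d = k / d := Nat.succ_div_of_not_dvd hdv
      refine (Nat.mul_le_mul ih h3).trans ?_
      rw [mul_assoc, ← pow_add]
      apply Nat.mul_le_mul_left
      apply Nat.pow_le_pow_right hq
      rw [h4, mul_add]
      omega

theorem E0_tr3 {K : Type} [Field K] [Finite K] (q : ℕ) (hq : 1 < q)
    (σ : K →+* K) (hσ : ∀ a, σ a = a ^ q) :
    Nat.card {y : K // ∑ j ∈ Finset.range (2 + 1), σ^[j] y = 0} ≤ q ^ 2 := by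
  have hq2 : q < q ^ 2 := by nlinarith
  have hp : (X ^ (q ^ 2) + X ^ q + X : K[X]) ≠ 0 := by
    intro h
    have h1 := congrArg (fun p : K[X] => p.coeff 1) h
    simp only [coeff_add, coeff_X_pow, coeff_X_one, coeff_zero] at h1
    rw [if_neg (by omega), if_neg (by omega)] at h1
    simp at h1
  have hdeg : (X ^ (q ^ 2) + X ^ q + X : K[X]).natDegree ≤ q ^ 2 := by
    refine (natDegree_add_le _ _).trans (max_le ((natDegree_add_le _ _).trans (max_le ?_ ?_)) ?_)
    · rw [natDegree_X_pow]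
    · rw [natDegree_X_pow]; exact hq2.le
    · rw [natDegree_X]; omega
  refine (E0_root _ hp _ ?_).trans hdeg
  intro y hy
  simp only [Finset.sum_range_succ, Finset.sum_range_zero, E0_iter q σ hσ] at hy
  simp only [eval_add, eval_pow, eval_X]
  simp only [pow_zero, pow_one, zero_add] at hy
  linear_combination hy

theorem E0_tr4 {K : Type} [Field K] [Finite K] (q : ℕ) (hq : 1 < q)
    (σ : K →+* K) (hσ : ∀ a, σ a = a ^ q) :
    Nat.card {y : K // ∑ j ∈ Finset.range (3 + 1), σ^[j] y = 0} ≤ q ^ 3 := by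
  have hq2 : q < q ^ 2 := by nlinarith
  have hq3 : q ^ 2 < q ^ 3 := by
    calc q ^ 2 = q ^ 2 * 1 := by ring
      _ < q ^ 2 * q := by
        apply Nat.mul_lt_mul_of_pos_left hq
        positivity
      _ = q ^ 3 := by ring
  have hp : (X ^ (q ^ 3) + X ^ (q ^ 2) + X ^ q + X : K[X]) ≠ 0 := by
    intro h
    have h1 := congrArg (fun p : K[X] => p.coeff 1) h
    simp only [coeff_add, coeff_X_pow, coeff_X_one, coeff_zero] at h1
    rw [if_neg (by omega), if_neg (by omega), if_neg (by omega)] at h1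
    simp at h1
  have hdeg : (X ^ (q ^ 3) + X ^ (q ^ 2) + X ^ q + X : K[X]).natDegree ≤ q ^ 3 := by
    refine (natDegree_add_le _ _).trans (max_le ((natDegree_add_le _ _).trans
      (max_le ((natDegree_add_le _ _).trans (max_le ?_ ?_)) ?_)) ?_)
    · rw [natDegree_X_pow]
    · rw [natDegree_X_pow]; exact hq3.le
    · rw [natDegree_X_pow]; omega
    · rw [natDegree_X]; omega
  refine (E0_root _ hp _ ?_).trans hdeg
  intro y hy
  simp only [Finset.sum_range_succ, Finset.sum_range_zero, E0_iter q σ hσ] at hy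
  simp only [eval_add, eval_pow, eval_X]
  simp only [pow_zero, pow_one, zero_add] at hy
  linear_combination hy

theorem bnd3 {K : Type} [Field K] [Finite K] (q : ℕ) (hq : 1 < q) (hK : Nat.card K = q ^ 3)
    (σ : K →+* K) (hσ : ∀ a, σ a = a ^ q) (m : ℕ) (hm : 1 ≤ m) :
    bnd 2 σ ⊥ m ≤ (q ^ 2 + q + 1) * q ^ (3 * (m - 1) - (m - 1) / 3) := by
  obtain ⟨k, rfl⟩ : ∃ k, m = k + 1 := ⟨m - 1, by omega⟩
  have h := E0_bound (fun i => wt 2 σ ⊥ i) (q ^ 2 + q + 1) q 3 1 3 (by omega) (by omega)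
    (by omega) ?_ ?_ ?_ k
  · simpa [bnd] using h
  · simp only [wt, if_true]
    apply E0_pow (q ^ 2 + q + 1) (by omega)
    rintro y ⟨u, hu, hy⟩
    rw [Subgroup.mem_bot] at hu
    rw [E0_prod q σ hσ, hu] at hy
    simp only [Finset.sum_range_succ, Finset.sum_range_zero, pow_zero, pow_one, zero_add,
      Units.val_one] at hy
    rw [show q ^ 2 + q + 1 = 1 + q + q ^ 2 by ring]
    exact hy
  · intro i hi hd
    simp only [wt]
    rw [if_neg (by omega), if_pos hd]
    exact E0_tr3 q hq σ hσ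
  · intro i hi
    simp only [wt]
    rw [if_neg (by omega)]
    split_ifs
    · refine (E0_tr3 q hq σ hσ).trans (Nat.pow_le_pow_right (by omega) (by omega))
    · rw [hK]

theorem bnd4' {K : Type} [Field K] [Finite K] (q : ℕ) (hq : 1 < q) (hK : Nat.card K = q ^ 8)
    (σ : K →+* K) (hσ : ∀ a, σ a = a ^ (q ^ 2)) (μ : Subgroup Kˣ)
    (hμ : ∀ u ∈ μ, u ^ (q + 1) = 1) (m : ℕ) (hm : 1 ≤ m) :
    bnd 3 σ μ m ≤ (q + 1) * (q ^ 6 + q ^ 4 + q ^ 2 + 1) *
      q ^ (2 * (4 * (m - 1) - (m - 1) / 4)) := by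
  obtain ⟨k, rfl⟩ : ∃ k, m = k + 1 := ⟨m - 1, by omega⟩
  have hQ : 1 < q ^ 2 := by nlinarith
  have h6 : (q ^ 2) ^ 3 = q ^ (8 - 2) := by rw [← pow_mul]
  have h := E0_bound (fun i => wt 3 σ μ i) ((q + 1) * (q ^ 6 + q ^ 4 + q ^ 2 + 1)) q 8 2 4
    (by omega) (by omega) (by omega) ?_ ?_ ?_ k
  · have h2 : 8 * k - 2 * (k / 4) = 2 * (4 * k - k / 4) := by omega
    simp only [Nat.add_sub_cancel]
    rw [← h2]
    exact h
  · simp only [wt, if_true]
    apply E0_pow _ (by positivity)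
    rintro y ⟨u, hu, hy⟩
    rw [E0_prod (q ^ 2) σ hσ] at hy
    have hu1 : (u : K) ^ (q + 1) = 1 := by
      have := congrArg (fun v : Kˣ => (v : K)) (hμ u hu)
      simpa using this
    have h3 : (q + 1) * (q ^ 6 + q ^ 4 + q ^ 2 + 1) =
        (∑ j ∈ Finset.range (3 + 1), (q ^ 2) ^ j) * (q + 1) := by
      simp only [Finset.sum_range_succ, Finset.sum_range_zero]
      ring
    rw [h3, pow_mul, hy, hu1]
  · intro i hi hd
    simp only [wt]
    rw [if_neg (by omega), if_pos hd, ← h6]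
    exact E0_tr4 (q ^ 2) hQ σ hσ
  · intro i hi
    simp only [wt]
    rw [if_neg (by omega)]
    split_ifs
    · refine (E0_tr4 (q ^ 2) hQ σ hσ).trans ?_
      rw [h6]
      exact Nat.pow_le_pow_right (by omega) (by omega)
    · rw [hK]

theorem bnd4 {K : Type} [Field K] [Finite K] (q : ℕ) (hq : 1 < q) (hK : Nat.card K = q ^ 8)
    (σ : K →+* K) (hσ : ∀ a, σ a = a ^ (q ^ 2)) (m : ℕ) (hm : 1 ≤ m) :
    bnd 3 σ ⊥ m ≤ (q ^ 6 + q ^ 4 + q ^ 2 + 1) * q ^ (2 * (4 * (m - 1) - (m - 1) / 4)) := by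
  obtain ⟨k, rfl⟩ : ∃ k, m = k + 1 := ⟨m - 1, by omega⟩
  have hQ : 1 < q ^ 2 := by nlinarith
  have h6 : (q ^ 2) ^ 3 = q ^ (8 - 2) := by rw [← pow_mul]
  have h := E0_bound (fun i => wt 3 σ ⊥ i) (q ^ 6 + q ^ 4 + q ^ 2 + 1) q 8 2 4
    (by omega) (by omega) (by omega) ?_ ?_ ?_ k
  · have h2 : 8 * k - 2 * (k / 4) = 2 * (4 * k - k / 4) := by omega
    simp only [Nat.add_sub_cancel]
    rw [← h2]
    exact h
  · simp only [wt, if_true]
    apply E0_pow _ (by positivity)
    rintro y ⟨u, hu, hy⟩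
    rw [Subgroup.mem_bot] at hu
    rw [E0_prod (q ^ 2) σ hσ, hu] at hy
    have h3 : q ^ 6 + q ^ 4 + q ^ 2 + 1 = ∑ j ∈ Finset.range (3 + 1), (q ^ 2) ^ j := by
      simp only [Finset.sum_range_succ, Finset.sum_range_zero]
      ring
    rw [h3]
    simpa using hy
  · intro i hi hd
    simp only [wt]
    rw [if_neg (by omega), if_pos hd, ← h6]
    exact E0_tr4 (q ^ 2) hQ σ hσ
  · intro i hi
    simp only [wt]
    rw [if_neg (by omega)]
    split_ifs
    · refine (E0_tr4 (q ^ 2) hQ σ hσ).trans ?_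
      rw [h6]
      exact Nat.pow_le_pow_right (by omega) (by omega)
    · rw [hK]

end Pool.Agent.H7R2.LG
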