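import Mathlib
import Pool.Agent.H7R2.LG.Defs

/-!
# Task D3b (helper649): `q + 1` pairwise non-proportional isotropic vectors in `F_{q^3}`
-/

set_option autoImplicit false

namespace Pool.Agent.H7R2.LG

open Polynomial

section D3b

variable {K : Type} [Field K]

/-- the trace as an additive map -/
noncomputable def D3b_tr (σ : K →+* K) : K →+ K where
  toFun y := y + σ y + σ (σ y)
  map_zero' := by simp
  map_add' x y := by simp only [map_add]; ring

theorem D3b_tr_apply (σ : K →+* K) (y : K) : D3b_tr σ y = y + σ y + σ (σ y) := rfl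

variable [Finite K]

theorem D3b_pow (q : ℕ) (hK : Nat.card K = q ^ 3) (σ : K →+* K) (hσ : ∀ a, σ a = a ^ q) (a : K) :
    σ (σ (σ a)) = a := by
  have := Fintype.ofFinite K
  rw [hσ, hσ, hσ, ← pow_mul, ← pow_mul]
  have h := FiniteField.pow_card a
  rw [← Nat.card_eq_fintype_card, hK] at h
  rw [show q * (q * q) = q ^ 3 by ring]
  simpa [pow_succ, mul_assoc] using h

theorem D3b_ker (q : ℕ) (hq : 1 < q) (hK : Nat.card K = q ^ 3) (σ : K →+* K)
    (hσ : ∀ a, σ a = a ^ q) : q ^ 2 ≤ Nat.card (D3b_tr σ).ker := by
  classical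
  have := Fintype.ofFinite K
  have h3 := D3b_pow q hK σ hσ
  have h1 : Nat.card (D3b_tr σ).ker * Nat.card (D3b_tr σ).range = q ^ 3 := by
    rw [← hK, AddSubgroup.card_eq_card_quotient_mul_card_addSubgroup (D3b_tr σ).ker, mul_comm]
    congr 1
    exact (Nat.card_congr (QuotientAddGroup.quotientKerEquivRange (D3b_tr σ)).toEquiv).symm
  have hne : (X ^ q - X : K[X]) ≠ 0 := FiniteField.X_pow_card_sub_X_ne_zero K hq
  have h2 : Nat.card (D3b_tr σ).range ≤ q := by
    have hsub : ((D3b_tr σ).range : Set K) ⊆ ((X ^ q - X : K[X]).roots.toFinset : Set K) := by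
      rintro _ ⟨y, rfl⟩
      simp only [Finset.mem_coe, Multiset.mem_toFinset, mem_roots hne, IsRoot.def, eval_sub,
        eval_pow, eval_X]
      rw [sub_eq_zero, ← hσ, D3b_tr_apply]
      simp only [map_add, h3]
      ring
    calc Nat.card (D3b_tr σ).range = ((D3b_tr σ).range : Set K).ncard := rfl
      _ ≤ ((X ^ q - X : K[X]).roots.toFinset : Set K).ncard :=
          Set.ncard_le_ncard hsub (Finset.finite_toSet _)
      _ = ((X ^ q - X : K[X]).roots.toFinset).card := Set.ncard_coe_finset _
      _ ≤ Multiset.card (X ^ q - X : K[X]).roots := Multiset.toFinset_card_le _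
      _ ≤ (X ^ q - X : K[X]).natDegree := card_roots' _
      _ = q := FiniteField.X_pow_card_sub_X_natDegree_eq K hq
  have hq0 : 0 < q := by omega
  have : q ^ 2 * q ≤ Nat.card (D3b_tr σ).ker * q := by
    calc q ^ 2 * q = q ^ 3 := by ring
      _ = Nat.card (D3b_tr σ).ker * Nat.card (D3b_tr σ).range := h1.symm
      _ ≤ _ := Nat.mul_le_mul_left _ h2
  exact Nat.le_of_mul_le_mul_right this hq0

/-- the number of `x` with `Tr (x²) = 0` -/
theorem D3b_card (q : ℕ) (hq : 1 < q) (hK : Nat.card K = q ^ 3) (σ : K →+* K)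
    (hσ : ∀ a, σ a = a ^ q) [Fintype K] [DecidableEq K] :
    q ^ 2 ≤ (Finset.univ.filter fun x : K => D3b_tr σ (x ^ 2) = 0).card := by
  have h3 := D3b_pow q hK σ hσ
  have hker := D3b_ker q hq hK σ hσ
  have hker' : Nat.card (D3b_tr σ).ker = (Finset.univ.filter fun y : K => D3b_tr σ y = 0).card := by
    rw [← Set.ncard_coe_finset]
    change ((D3b_tr σ).ker : Set K).ncard = _
    congr 1
    ext y
    simp [AddMonoidHom.mem_ker]
  rw [hker'] at hker
  refine hker.trans ?_
  by_cases h2 : ringChar K = 2
  · -- characteristic two: squaring is a bijection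
    have hc : CharP K 2 := by rw [← h2]; exact ringChar.charP K
    have hinj : Function.Injective (fun x : K => x ^ 2) := by
      intro x y hxy
      have := frobenius_inj K 2
      exact this (by simpa [frobenius_def] using hxy)
    have hsurj : Function.Surjective (fun x : K => x ^ 2) := Finite.surjective_of_injective hinj
    apply Finset.card_le_card_of_surjOn (fun x : K => x ^ 2)
    intro y hy
    obtain ⟨x, hx⟩ := hsurj y
    refine ⟨x, ?_, hx⟩
    simp only [Finset.coe_filter, Finset.mem_univ, true_and, Set.mem_ofPred_eq] at hy ⊢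
    rw [show x ^ 2 = y from hx]
    exact hy
  · -- odd characteristic
    obtain ⟨w, hw⟩ := FiniteField.exists_nonsquare h2
    have hw0 : w ≠ 0 := by
      rintro rfl
      exact hw ⟨0, by simp⟩
    set g : K := w ^ (1 + q + q ^ 2) with hg
    have hg0 : g ≠ 0 := pow_ne_zero _ hw0
    have hσg : σ g = g := by
      have h : g = w * σ w * σ (σ w) := by
        rw [hg, hσ, hσ]; ring
      rw [h]
      simp only [map_mul, h3]
      ring
    have hodd : Odd (1 + q + q ^ 2) := by
      rcases Nat.even_or_odd q with h | h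
      · have : Even (q + q ^ 2) := h.add (h.pow_of_ne_zero two_ne_zero)
        rw [add_assoc]
        exact Even.one_add this
      · have : Even (q + q ^ 2) := h.add_odd (h.pow)
        rw [add_assoc]
        exact Even.one_add this
    have hχg : quadraticChar K g = -1 := by
      rw [hg, map_pow]
      have : quadraticChar K w = -1 := quadraticChar_neg_one_iff_not_isSquare.mpr hw
      rw [this]
      exact hodd.neg_one_pow
    have htr : ∀ y : K, D3b_tr σ (g * y) = g * D3b_tr σ y := by
      intro y
      simp only [D3b_tr_apply, map_mul, hσg]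
      ring
    have hsum : ∑ y ∈ Finset.univ.filter (fun y : K => D3b_tr σ y = 0), quadraticChar K y
        = -∑ y ∈ Finset.univ.filter (fun y : K => D3b_tr σ y = 0), quadraticChar K y := by
      rw [← Finset.sum_neg_distrib]
      symm
      apply Finset.sum_bij (fun y _ => g * y)
      · intro y hy
        simp only [Finset.mem_filter, Finset.mem_univ, true_and] at hy ⊢
        rw [htr, hy, mul_zero]
      · intro a _ b _ hab
        exact mul_left_cancel₀ hg0 hab
      · intro y hy
        refine ⟨g⁻¹ * y, ?_, by field_simp⟩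
        simp only [Finset.mem_filter, Finset.mem_univ, true_and] at hy ⊢
        have := htr (g⁻¹ * y)
        rw [← mul_assoc, mul_inv_cancel₀ hg0, one_mul, hy] at this
        exact (mul_eq_zero.mp this.symm).resolve_left hg0
      · intro y _
        rw [map_mul, hχg]
        ring
    have hsum0 : ∑ y ∈ Finset.univ.filter (fun y : K => D3b_tr σ y = 0), quadraticChar K y = 0 := by
      omega
    have key : ((Finset.univ.filter fun x : K => D3b_tr σ (x ^ 2) = 0).card : ℤ)
        = (Finset.univ.filter fun y : K => D3b_tr σ y = 0).card := by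
      have hfib : (Finset.univ.filter fun x : K => D3b_tr σ (x ^ 2) = 0).card
          = ∑ y ∈ Finset.univ.filter (fun y : K => D3b_tr σ y = 0),
            ((Finset.univ.filter fun x : K => D3b_tr σ (x ^ 2) = 0).filter
              fun x => x ^ 2 = y).card := by
        apply Finset.card_eq_sum_card_fiberwise
        intro x hx
        simpa using hx
      rw [hfib]
      push_cast
      have hterm : ∀ y ∈ Finset.univ.filter (fun y : K => D3b_tr σ y = 0),
          ((((Finset.univ.filter fun x : K => D3b_tr σ (x ^ 2) = 0).filter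
              fun x => x ^ 2 = y).card : ℕ) : ℤ) = quadraticChar K y + 1 := by
        intro y hy
        rw [← quadraticChar_card_sqrts h2 y]
        congr 2
        ext x
        simp only [Finset.mem_filter, Finset.mem_univ, true_and, Set.mem_toFinset,
          Set.mem_ofPred_eq] at hy ⊢
        constructor
        · exact fun h => h.2
        · intro h
          exact ⟨by rw [h]; exact hy, h⟩
      rw [Finset.sum_congr rfl hterm, Finset.sum_add_distrib, hsum0]
      simp
    have : (Finset.univ.filter fun x : K => D3b_tr σ (x ^ 2) = 0).card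
        = (Finset.univ.filter fun y : K => D3b_tr σ y = 0).card := by exact_mod_cast key
    exact this.ge

end D3b

theorem count3 {K : Type} [Field K] [Finite K] (q : ℕ) (hq : 1 < q) (hK : Nat.card K = q ^ 3)
    (σ : K →+* K) (hσ : ∀ a, σ a = a ^ q) :
    ∃ ξ : Fin (q + 1) → K, (∀ i, ξ i ≠ 0) ∧
      (∀ i, ξ i ^ 2 + σ (ξ i) ^ 2 + σ (σ (ξ i)) ^ 2 = 0) ∧
      (∀ i j, i ≠ j → ξ i * σ (ξ j) ≠ ξ j * σ (ξ i)) := by
  classical
  have := Fintype.ofFinite K
  have hcard := D3b_card q hq hK σ hσ
  set S : Finset K := (Finset.univ.filter fun x : K => D3b_tr σ (x ^ 2) = 0).erase 0 with hS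
  have hScard : q ^ 2 - 1 ≤ S.card := by
    rw [hS, Finset.card_erase_of_mem (by simp)]
    omega
  have hfib : S.card ≤ (q - 1) * (S.image fun x => x ^ (q - 1)).card := by
    apply Finset.card_le_mul_card_image
    intro a _
    calc (S.filter fun x => x ^ (q - 1) = a).card
        ≤ (nthRoots (q - 1) a).toFinset.card := by
          apply Finset.card_le_card
          intro x hx
          rw [Finset.mem_filter] at hx
          rw [Multiset.mem_toFinset, mem_nthRoots (by omega)]
          exact hx.2
      _ ≤ Multiset.card (nthRoots (q - 1) a) := Multiset.toFinset_card_le _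
      _ ≤ q - 1 := card_nthRoots _ _
  have himg : q + 1 ≤ (S.image fun x => x ^ (q - 1)).card := by
    have h1 : (q - 1) * (q + 1) ≤ (q - 1) * (S.image fun x => x ^ (q - 1)).card := by
      refine le_trans ?_ (hScard.trans hfib)
      obtain ⟨r, rfl⟩ : ∃ r, q = r + 1 := ⟨q - 1, by omega⟩
      rw [Nat.add_sub_cancel]
      have : (r + 1) ^ 2 - 1 = r * (r + 1 + 1) := by
        rw [show (r + 1) ^ 2 = r * (r + 1 + 1) + 1 by ring, Nat.add_sub_cancel]
      exact this.ge
    exact Nat.le_of_mul_le_mul_left h1 (by omega)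
  obtain ⟨f⟩ : Nonempty (Fin (q + 1) ↪ (S.image fun x => x ^ (q - 1))) := by
    rw [Function.Embedding.nonempty_iff_card_le, Fintype.card_fin, Fintype.card_coe]
    exact himg
  have hch : ∀ i : Fin (q + 1), ∃ x ∈ S, x ^ (q - 1) = (f i : K) := by
    intro i
    exact Finset.mem_image.mp (f i).2
  choose ξ hξS hξ using hch
  have h0 : ∀ i, ξ i ≠ 0 := fun i => (Finset.mem_erase.mp (hξS i)).1
  refine ⟨ξ, h0, ?_, ?_⟩
  · intro i
    have := (Finset.mem_erase.mp (hξS i)).2
    rw [Finset.mem_filter] at this
    have h := this.2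
    rw [D3b_tr_apply] at h
    simpa only [map_pow] using h
  · intro i j hij h
    apply hij
    apply f.injective
    apply Subtype.ext
    rw [← hξ i, ← hξ j]
    rw [hσ, hσ] at h
    obtain ⟨r, rfl⟩ : ∃ r, q = r + 1 := ⟨q - 1, by omega⟩
    rw [Nat.add_sub_cancel]
    have : ξ i * ξ j * (ξ j ^ r) = ξ i * ξ j * (ξ i ^ r) := by
      calc ξ i * ξ j * (ξ j ^ r) = ξ i * ξ j ^ (r + 1) := by ring
        _ = ξ j * ξ i ^ (r + 1) := h
        _ = ξ i * ξ j * (ξ i ^ r) := by ring
    exact (mul_left_cancel₀ (mul_ne_zero (h0 i) (h0 j)) this).symm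

end Pool.Agent.H7R2.LG
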