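import Pool.Agent.H7R2.LG.T4

set_option autoImplicit false

namespace Pool.Agent.H7R2.LG

open Matrix Polynomial

theorem D4a_det {R : Type*} [CommRing R] (a b c d e f g h : R) :
    (!![a, b, 0, 0; 0, c, d, 0; 0, 0, e, f; g, 0, 0, h] : Matrix (Fin 4) (Fin 4) R).det =
      a * c * e * h - b * d * f * g := by
  have h1 : Fin.succAbove (1 : Fin 4) (2 : Fin 3) = 3 := rfl
  simp [Matrix.det_succ_row_zero, Fin.sum_univ_succ, h1]
  ring

theorem D4a_J {R : Type*} [CommRing R] (x : R) :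
    (1 + Pm 3 x : Matrix (Fin 4) (Fin 4) R) =
      !![1, 1, 0, 0; 0, 1, 1, 0; 0, 0, 1, 1; x, 0, 0, 1] := by
  ext i j
  fin_cases i <;> fin_cases j <;> simp [Pm]

/-- the matrix `T4` with names for the conjugates -/
noncomputable def D4a_T {K : Type} [Field K] (a0 a1 a2 a3 a4 a5 a6 a7 : K) :
    Matrix (Fin 4) (Fin 4) K[X] :=
  !![C (a6 / a3), C (a2 / a5), 0, 0;
     0, C (a0 / a5), C (a4 / a7), 0;
     0, 0, C (a2 / a7), C (a6 / a1);
     X * C (a0 / a3), 0, 0, C (a4 / a1)]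

theorem D4a_inO {K : Type} [Field K] (ψ : K →+* K) (a0 a1 a2 a3 a4 a5 a6 a7 : K)
    (h0 : ψ a0 = a1) (h1 : ψ a1 = a2) (h2 : ψ a2 = a3) (h3 : ψ a3 = a4) (h4 : ψ a4 = a5)
    (h5 : ψ a5 = a6) (h6 : ψ a6 = a7) (h7 : ψ a7 = a0) :
    InO (mapRingHom (ψ.comp ψ)) X (D4a_T a0 a1 a2 a3 a4 a5 a6 a7) := by
  unfold InO
  have hP : (Pm 3 X : Matrix (Fin 4) (Fin 4) K[X]) =
      !![0, 1, 0, 0; 0, 0, 1, 0; 0, 0, 0, 1; X, 0, 0, 0] := by
    ext1 i j
    fin_cases i <;> fin_cases j <;> simp [Pm]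
  have hM : (D4a_T a0 a1 a2 a3 a4 a5 a6 a7).map (mapRingHom (ψ.comp ψ)) =
      !![C (a0 / a5), C (a4 / a7), 0, 0;
        0, C (a2 / a7), C (a6 / a1), 0;
        0, 0, C (a4 / a1), C (a0 / a3);
        X * C (a2 / a5), 0, 0, C (a6 / a3)] := by
    unfold D4a_T
    ext1 i j
    fin_cases i <;> fin_cases j <;>
      simp [h0, h1, h2, h3, h4, h5, h6, h7]
  rw [hM, hP]
  unfold D4a_T
  ext1 i j
  fin_cases i <;> fin_cases j <;>
    simp [Matrix.mul_apply, Fin.sum_univ_four]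

theorem D4a_detT {K : Type} [Field K] (a0 a1 a2 a3 a4 a5 a6 a7 : K)
    (n1 : a1 ≠ 0) (n3 : a3 ≠ 0) (n5 : a5 ≠ 0) (n7 : a7 ≠ 0) :
    (D4a_T a0 a1 a2 a3 a4 a5 a6 a7).det =
      C ((a0 * a2 * a4 * a6) / (a1 * a3 * a5 * a7)) * (1 - C 1 * X) := by
  unfold D4a_T
  rw [D4a_det]
  have c1 : C (a6 / a3) * C (a0 / a5) * C (a2 / a7) * C (a4 / a1) =
      C ((a0 * a2 * a4 * a6) / (a1 * a3 * a5 * a7)) := by
    rw [← C_mul, ← C_mul, ← C_mul]
    congr 1
    field_simp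
  have c2 : C (a2 / a5) * C (a4 / a7) * C (a6 / a1) * C (a0 / a3) =
      C ((a0 * a2 * a4 * a6) / (a1 * a3 * a5 * a7)) := by
    rw [← C_mul, ← C_mul, ← C_mul]
    congr 1
    field_simp
  rw [C_1]
  linear_combination c1 - X * c2

theorem D4a_theta {K : Type} [Field K] (ψ : K →+* K) (a0 a1 a2 a3 a4 a5 a6 a7 : K)
    (h0 : ψ a0 = a1) (h1 : ψ a1 = a2) (h2 : ψ a2 = a3) (h3 : ψ a3 = a4) (h4 : ψ a4 = a5)
    (h5 : ψ a5 = a6) (h6 : ψ a6 = a7) (h7 : ψ a7 = a0)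
    (n0 : a0 ≠ 0) (n1 : a1 ≠ 0) (n2 : a2 ≠ 0) (n3 : a3 ≠ 0) (n4 : a4 ≠ 0) (n5 : a5 ≠ 0)
    (n6 : a6 ≠ 0) (n7 : a7 ≠ 0)
    (i0 : a0 * a1 + a1 * a6 + a6 * a7 = a3 * a4) :
    ((D4a_T a0 a1 a2 a3 a4 a5 a6 a7).map (Psi ψ))ᵀ *
      (1 + Pm 3 X : Matrix (Fin 4) (Fin 4) K[X]).map (algebraMap K[X] (FractionRing K[X])) *
      (D4a_T a0 a1 a2 a3 a4 a5 a6 a7).map (algebraMap K[X] (FractionRing K[X])) =
    !![1, 1, 1, (algebraMap K[X] (FractionRing K[X]) X)⁻¹; 1, 1, 1, 1;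
      algebraMap K[X] (FractionRing K[X]) X, 1, 1, 1;
      algebraMap K[X] (FractionRing K[X]) X, algebraMap K[X] (FractionRing K[X]) X, 1, 1] := by
  have i1 := congrArg ψ i0
  simp only [map_add, map_mul, h0, h1, h2, h3, h4, h5, h6, h7] at i1
  have i2 := congrArg ψ i1
  simp only [map_add, map_mul, h0, h1, h2, h3, h4, h5, h6, h7] at i2
  have i3 := congrArg ψ i2
  simp only [map_add, map_mul, h0, h1, h2, h3, h4, h5, h6, h7] at i3
  have i4 := congrArg ψ i3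
  simp only [map_add, map_mul, h0, h1, h2, h3, h4, h5, h6, h7] at i4
  have i5 := congrArg ψ i4
  simp only [map_add, map_mul, h0, h1, h2, h3, h4, h5, h6, h7] at i5
  have i6 := congrArg ψ i5
  simp only [map_add, map_mul, h0, h1, h2, h3, h4, h5, h6, h7] at i6
  have i7 := congrArg ψ i6
  simp only [map_add, map_mul, h0, h1, h2, h3, h4, h5, h6, h7] at i7
  have hX : algebraMap K[X] (FractionRing K[X]) X ≠ 0 := by
    intro h
    exact X_ne_zero ((IsFractionRing.injective K[X] (FractionRing K[X]))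
      (h.trans (map_zero (algebraMap K[X] (FractionRing K[X]))).symm))
  obtain ⟨x, hx⟩ : ∃ x, x = algebraMap K[X] (FractionRing K[X]) X := ⟨_, rfl⟩
  obtain ⟨c, hc⟩ : ∃ c : K →+* FractionRing K[X],
    c = (algebraMap K[X] (FractionRing K[X])).comp C := ⟨_, rfl⟩
  have hc' : ∀ a, algebraMap K[X] (FractionRing K[X]) (C a) = c a := by
    intro a; rw [hc]; rfl
  have hPC : ∀ a, Psi ψ (C a) = c (ψ a) := by
    intro a
    rw [hc]
    unfold Psi
    simp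
  have hPX : Psi ψ X = x⁻¹ := by
    unfold Psi
    rw [hx]
    simp
  rw [D4a_J, ← hx]
  rw [← hx] at hX
  have m0 := (map_ne_zero c).2 n0
  have m1 := (map_ne_zero c).2 n1
  have m2 := (map_ne_zero c).2 n2
  have m3 := (map_ne_zero c).2 n3
  have m4 := (map_ne_zero c).2 n4
  have m5 := (map_ne_zero c).2 n5
  have m6 := (map_ne_zero c).2 n6
  have m7 := (map_ne_zero c).2 n7
  have j0 := congrArg c i0
  have j1 := congrArg c i1
  have j2 := congrArg c i2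
  have j3 := congrArg c i3
  have j4 := congrArg c i4
  have j5 := congrArg c i5
  have j6 := congrArg c i6
  have j7 := congrArg c i7
  simp only [map_add, map_mul] at j0 j1 j2 j3 j4 j5 j6 j7
  have e1 : ((D4a_T a0 a1 a2 a3 a4 a5 a6 a7).map (Psi ψ))ᵀ =
      !![c a7 / c a4, 0, 0, (c a1 / c a4) * x⁻¹;
        c a3 / c a6, c a1 / c a6, 0, 0;
        0, c a5 / c a0, c a3 / c a0, 0;
        0, 0, c a7 / c a2, c a5 / c a2] := by
    unfold D4a_T
    ext1 i j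
    fin_cases i <;> fin_cases j <;>
      simp [hPC, hPX, h0, h1, h2, h3, h4, h5, h6, h7]
  have e2 : (D4a_T a0 a1 a2 a3 a4 a5 a6 a7).map (algebraMap K[X] (FractionRing K[X])) =
      !![c a6 / c a3, c a2 / c a5, 0, 0;
        0, c a0 / c a5, c a4 / c a7, 0;
        0, 0, c a2 / c a7, c a6 / c a1;
        (c a0 / c a3) * x, 0, 0, c a4 / c a1] := by
    unfold D4a_T
    ext1 i j
    fin_cases i <;> fin_cases j <;>
      simp [hc', ← hx]
  have e3 : (!![1, 1, 0, 0; 0, 1, 1, 0; 0, 0, 1, 1; X, 0, 0, 1] :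
      Matrix (Fin 4) (Fin 4) K[X]).map (algebraMap K[X] (FractionRing K[X])) =
      !![1, 1, 0, 0; 0, 1, 1, 0; 0, 0, 1, 1; x, 0, 0, 1] := by
    ext1 i j
    fin_cases i <;> fin_cases j <;> simp [← hx]
  rw [e1, e2, e3]
  generalize c a0 = A0 at *
  generalize c a1 = A1 at *
  generalize c a2 = A2 at *
  generalize c a3 = A3 at *
  generalize c a4 = A4 at *
  generalize c a5 = A5 at *
  generalize c a6 = A6 at *
  generalize c a7 = A7 at *
  clear e1 e2 e3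
  ext1 i j
  fin_cases i <;> fin_cases j
  all_goals simp [Matrix.mul_apply, Fin.sum_univ_four]
  all_goals field_simp
  · linear_combination j0
  · linear_combination j1
  · linear_combination j2
  · linear_combination j3
  · linear_combination j4
  · linear_combination j5
  · linear_combination j7
  · linear_combination j6

theorem datum4_of {K : Type} [Field K] (ψ : K →+* K) (hψ : ∀ a, ψ^[8] a = a) {ι : Type}
    (e : ι → K) (h0 : ∀ i, e i ≠ 0)
    (hiso : ∀ i, e i * ψ (e i) + ψ (e i) * ψ^[6] (e i) + ψ^[6] (e i) * ψ^[7] (e i) =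
      ψ^[3] (e i) * ψ^[4] (e i))
    (hne4 : ∀ L : List (ι × ι), Red L → L ≠ [] →
      (L.map fun p => (T4 ψ (e p.1) * (T4 ψ (e p.2)).adjugate).map (eval 1)).prod ≠ 0) :
    ∃ D : Datum K 3 ι, (∀ a, D.σ a = ψ (ψ a)) ∧
      ∀ i, D.c i = (e i * ψ^[2] (e i) * ψ^[4] (e i) * ψ^[6] (e i)) /
        (ψ (e i) * ψ^[3] (e i) * ψ^[5] (e i) * ψ^[7] (e i)) := by
  have hn : ∀ i (k : ℕ), ψ^[k] (e i) ≠ 0 := by
    intro i k
    induction k with
    | zero => exact h0 i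
    | succ k ih =>
      rw [Function.iterate_succ_apply']
      exact (map_ne_zero ψ).2 ih
  have hs : ∀ i (k : ℕ), ψ (ψ^[k] (e i)) = ψ^[k + 1] (e i) := by
    intro i k
    rw [Function.iterate_succ_apply']
  have hT : ∀ i, T4 ψ (e i) = D4a_T (e i) (ψ (e i)) (ψ^[2] (e i)) (ψ^[3] (e i)) (ψ^[4] (e i))
      (ψ^[5] (e i)) (ψ^[6] (e i)) (ψ^[7] (e i)) := fun i => rfl
  have s7 : ∀ i, ψ (ψ^[7] (e i)) = e i := by
    intro i
    rw [hs i 7]
    exact hψ (e i)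
  refine ⟨{
    σ := ψ.comp ψ
    hσ := ?_
    ψ := ψ
    T := fun i => T4 ψ (e i)
    hT := ?_
    c := fun i => (e i * ψ^[2] (e i) * ψ^[4] (e i) * ψ^[6] (e i)) /
        (ψ (e i) * ψ^[3] (e i) * ψ^[5] (e i) * ψ^[7] (e i))
    hc := ?_
    ε := 1
    hε := one_mul 1
    hψε := map_one ψ
    hdet := ?_
    J := 1 + Pm 3 X
    hJ := ?_
    Θ := !![1, 1, 1, (algebraMap K[X] (FractionRing K[X]) X)⁻¹; 1, 1, 1, 1;
      algebraMap K[X] (FractionRing K[X]) X, 1, 1, 1;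
      algebraMap K[X] (FractionRing K[X]) X, algebraMap K[X] (FractionRing K[X]) X, 1, 1]
    hΘ := ?_
    hne := ?_ }, ?_, ?_⟩
  · intro a
    exact hψ a
  · intro i
    rw [hT i]
    exact D4a_inO ψ _ _ _ _ _ _ _ _ rfl (hs i 1) (hs i 2) (hs i 3) (hs i 4) (hs i 5) (hs i 6)
      (s7 i)
  · intro i
    have n0 := hn i 0
    have n1 := hn i 1
    have n2 := hn i 2
    have n3 := hn i 3
    have n4 := hn i 4
    have n5 := hn i 5
    have n6 := hn i 6
    have n7 := hn i 7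
    exact div_ne_zero (mul_ne_zero (mul_ne_zero (mul_ne_zero n0 n2) n4) n6)
      (mul_ne_zero (mul_ne_zero (mul_ne_zero n1 n3) n5) n7)
  · intro i
    have n0 := hn i 0
    have n1 := hn i 1
    have n2 := hn i 2
    have n3 := hn i 3
    have n4 := hn i 4
    have n5 := hn i 5
    have n6 := hn i 6
    have n7 := hn i 7
    rw [hT i]
    exact D4a_detT _ _ _ _ _ _ _ _ n1 n3 n5 n7
  · rw [D4a_J, D4a_det]
    intro h
    have h2 := congrArg (Polynomial.eval 0) h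
    simp at h2
  · intro i
    rw [hT i]
    exact D4a_theta ψ _ _ _ _ _ _ _ _ rfl (hs i 1) (hs i 2) (hs i 3) (hs i 4) (hs i 5) (hs i 6)
      (s7 i) (hn i 0) (hn i 1) (hn i 2) (hn i 3) (hn i 4) (hn i 5) (hn i 6) (hn i 7) (hiso i)
  · intro L hL hne
    exact hne4 L hL hne
  · intro a
    rfl
  · intro i
    rfl

end Pool.Agent.H7R2.LG
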