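import Pool.Agent.H7R2.LG.T4

set_option autoImplicit false

/-! Task D4n: non-vanishing of the leading coefficients in degree 4. -/

namespace Pool.Agent.H7R2.LG

open Matrix Polynomial

/-- the orbit of an element and its relations -/
structure D4n_Oct {K : Type} [Field K] (ψ : K →+* K) (e0 e1 e2 e3 e4 e5 e6 e7 : K) : Prop where
  s0 : ψ e0 = e1
  s1 : ψ e1 = e2
  s2 : ψ e2 = e3
  s3 : ψ e3 = e4
  s4 : ψ e4 = e5
  s5 : ψ e5 = e6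
  s6 : ψ e6 = e7
  s7 : ψ e7 = e0
  n0 : e0 ≠ 0
  n1 : e1 ≠ 0
  n2 : e2 ≠ 0
  n3 : e3 ≠ 0
  n4 : e4 ≠ 0
  n5 : e5 ≠ 0
  n6 : e6 ≠ 0
  n7 : e7 ≠ 0
  t0 : e0 + e2 + e4 + e6 = 0
  t1 : e1 + e3 + e5 + e7 = 0
  i0 : e0 * e1 + e1 * e6 + e6 * e7 = e3 * e4
  i1 : e1 * e2 + e2 * e7 + e7 * e0 = e4 * e5
  i2 : e2 * e3 + e3 * e0 + e0 * e1 = e5 * e6
  i3 : e3 * e4 + e4 * e1 + e1 * e2 = e6 * e7
  i4 : e4 * e5 + e5 * e2 + e2 * e3 = e7 * e0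
  i5 : e5 * e6 + e6 * e3 + e3 * e4 = e0 * e1
  i6 : e6 * e7 + e7 * e4 + e4 * e5 = e1 * e2
  i7 : e7 * e0 + e0 * e5 + e5 * e6 = e2 * e3

theorem D4n_oct {K : Type} [Field K] (ψ : K →+* K) (hψ : ∀ a, ψ^[8] a = a) (e : K) (h0 : e ≠ 0)
    (htr : e + ψ^[2] e + ψ^[4] e + ψ^[6] e = 0)
    (hiso : e * ψ e + ψ e * ψ^[6] e + ψ^[6] e * ψ^[7] e = ψ^[3] e * ψ^[4] e) :
    D4n_Oct ψ e (ψ e) (ψ^[2] e) (ψ^[3] e) (ψ^[4] e) (ψ^[5] e) (ψ^[6] e) (ψ^[7] e) := by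
  have st : ∀ n, ψ (ψ^[n] e) = ψ^[n + 1] e := fun n => (Function.iterate_succ_apply' ψ n e).symm
  have nz : ∀ n, ψ^[n] e ≠ 0 := by
    intro n
    induction n with
    | zero => simpa using h0
    | succ k ih => rw [← st]; exact (map_ne_zero ψ).mpr ih
  have s1 : ψ (ψ e) = ψ^[2] e := rfl
  have s7 : ψ (ψ^[7] e) = e := by rw [st]; exact hψ e
  have i1 := congrArg ψ hiso
  simp only [map_add, map_mul, s1, st, s7, Nat.reduceAdd, hψ] at i1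
  have i2 := congrArg ψ i1
  simp only [map_add, map_mul, s1, st, s7, Nat.reduceAdd, hψ] at i2
  have i3 := congrArg ψ i2
  simp only [map_add, map_mul, s1, st, s7, Nat.reduceAdd, hψ] at i3
  have i4 := congrArg ψ i3
  simp only [map_add, map_mul, s1, st, s7, Nat.reduceAdd, hψ] at i4
  have i5 := congrArg ψ i4
  simp only [map_add, map_mul, s1, st, s7, Nat.reduceAdd, hψ] at i5
  have i6 := congrArg ψ i5
  simp only [map_add, map_mul, s1, st, s7, Nat.reduceAdd, hψ] at i6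
  have i7 := congrArg ψ i6
  simp only [map_add, map_mul, s1, st, s7, Nat.reduceAdd, hψ] at i7
  have t1 := congrArg ψ htr
  simp only [map_add, map_mul, map_zero, s1, st, s7, Nat.reduceAdd, hψ] at t1
  exact ⟨rfl, rfl, st 2, st 3, st 4, st 5, st 6, s7, h0, nz 1, nz 2, nz 3, nz 4, nz 5, nz 6, nz 7,
    htr, t1, hiso, i1, i2, i3, i4, i5, i6, i7⟩

theorem D4n_par {K : Type} [Field K] (c0 c1 c2 u0 u1 u2 v0 v1 v2 : K)
    (hu1 : u0 * c1 = u1 * c0) (hu3 : u2 * c0 = u0 * c2)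
    (hv1 : v0 * c1 = v1 * c0) (hv3 : v2 * c0 = v0 * c2) (hc : c0 ≠ 0) :
    u1 * v2 - u2 * v1 = 0 ∧ u2 * v0 - u0 * v2 = 0 ∧ u0 * v1 - u1 * v0 = 0 := by
  have w2 : u0 * v1 - u1 * v0 = 0 := by
    have : c0 * (u0 * v1 - u1 * v0) = 0 := by linear_combination (-u0) * hv1 + v0 * hu1
    exact (mul_eq_zero.mp this).resolve_left hc
  have w1 : u2 * v0 - u0 * v2 = 0 := by
    have : c0 * (u2 * v0 - u0 * v2) = 0 := by linear_combination v0 * hu3 - u0 * hv3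
    exact (mul_eq_zero.mp this).resolve_left hc
  have w0 : u1 * v2 - u2 * v1 = 0 := by
    have : c0 * (u1 * v2 - u2 * v1) = 0 := by
      linear_combination u1 * hv3 - v1 * hu3 - c2 * w2
    exact (mul_eq_zero.mp this).resolve_left hc
  exact ⟨w0, w1, w2⟩

/-- two pairs of vectors orthogonal to each other: one of the cross products vanishes -/
theorem D4n_cross {K : Type} [Field K] (x0 x1 x2 y0 y1 y2 u0 u1 u2 v0 v1 v2 : K)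
    (hxu : x0 * u0 + x1 * u1 + x2 * u2 = 0) (hyu : y0 * u0 + y1 * u1 + y2 * u2 = 0)
    (hxv : x0 * v0 + x1 * v1 + x2 * v2 = 0) (hyv : y0 * v0 + y1 * v1 + y2 * v2 = 0) :
    (x1 * y2 - x2 * y1 = 0 ∧ x2 * y0 - x0 * y2 = 0 ∧ x0 * y1 - x1 * y0 = 0) ∨
    (u1 * v2 - u2 * v1 = 0 ∧ u2 * v0 - u0 * v2 = 0 ∧ u0 * v1 - u1 * v0 = 0) := by
  have hu1 : u0 * (x2 * y0 - x0 * y2) = u1 * (x1 * y2 - x2 * y1) := by
    linear_combination x2 * hyu - y2 * hxu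
  have hu2 : u1 * (x0 * y1 - x1 * y0) = u2 * (x2 * y0 - x0 * y2) := by
    linear_combination x0 * hyu - y0 * hxu
  have hu3 : u2 * (x1 * y2 - x2 * y1) = u0 * (x0 * y1 - x1 * y0) := by
    linear_combination x1 * hyu - y1 * hxu
  have hv1 : v0 * (x2 * y0 - x0 * y2) = v1 * (x1 * y2 - x2 * y1) := by
    linear_combination x2 * hyv - y2 * hxv
  have hv2 : v1 * (x0 * y1 - x1 * y0) = v2 * (x2 * y0 - x0 * y2) := by
    linear_combination x0 * hyv - y0 * hxv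
  have hv3 : v2 * (x1 * y2 - x2 * y1) = v0 * (x0 * y1 - x1 * y0) := by
    linear_combination x1 * hyv - y1 * hxv
  by_cases h0 : x1 * y2 - x2 * y1 = 0
  · by_cases h1 : x2 * y0 - x0 * y2 = 0
    · by_cases h2 : x0 * y1 - x1 * y0 = 0
      · exact Or.inl ⟨h0, h1, h2⟩
      · obtain ⟨a, b, c⟩ := D4n_par _ _ _ u2 u0 u1 v2 v0 v1 hu3 hu2 hv3 hv2 h2
        exact Or.inr ⟨b, c, a⟩
    · obtain ⟨a, b, c⟩ := D4n_par _ _ _ u1 u2 u0 v1 v2 v0 hu2 hu1 hv2 hv1 h1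
      exact Or.inr ⟨c, a, b⟩
  · obtain ⟨a, b, c⟩ := D4n_par _ _ _ u0 u1 u2 v0 v1 v2 hu1 hu3 hv1 hv3 h0
    exact Or.inr ⟨a, b, c⟩

theorem D4n_inj {K : Type} [Field K] (ψ : K →+* K) {a : K} (h : ψ a = 0) : a = 0 :=
  (map_eq_zero ψ).mp h

/-- `H(g,e) ≠ 0` -/
theorem D4n_H {K : Type} [Field K] (ψ : K →+* K) {e0 e1 e2 e3 e4 e5 e6 e7 : K}
    {g0 g1 g2 g3 g4 g5 g6 g7 : K} (He : D4n_Oct ψ e0 e1 e2 e3 e4 e5 e6 e7)
    (Hg : D4n_Oct ψ g0 g1 g2 g3 g4 g5 g6 g7) (hind : e0 * g2 ≠ g0 * e2) :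
    g2 * e1 + g4 * (e1 + e3) - g6 * e7 ≠ 0 := by
  intro h
  have hp := congrArg ψ h
  simp only [map_add, map_sub, map_mul, map_zero, He.s1, He.s3, He.s7, He.s0, Hg.s2, Hg.s4, Hg.s6]
    at hp
  -- the four orthogonality relations
  have h1 : e0 * (e1 + e3 + e5) + e2 * (e3 + e5) + e4 * e5 = 0 := by
    linear_combination e0 * He.t1 + He.i4
  have h2 : g0 * (e1 + e3 + e5) + g2 * (e3 + e5) + g4 * e5 = 0 := by
    linear_combination (g0 + g2 + g4) * He.t1 - h - e7 * Hg.t0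
  have h3 : e0 * (g1 + g3 + g5) + e2 * (g3 + g5) + e4 * g5 = 0 := by
    linear_combination e0 * Hg.t1 + hp
  have h4 : g0 * (g1 + g3 + g5) + g2 * (g3 + g5) + g4 * g5 = 0 := by
    linear_combination g0 * Hg.t1 + Hg.i4
  rcases D4n_cross e0 e2 e4 g0 g2 g4 (e1 + e3 + e5) (e3 + e5) e5 (g1 + g3 + g5) (g3 + g5) g5
    h1 h2 h3 h4 with ⟨-, -, c⟩ | ⟨a, b, c⟩
  · exact hind (by linear_combination c)
  · apply hind
    have e : ψ (e0 * g2 - g0 * e2) = 0 := by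
      simp only [map_sub, map_mul, He.s0, He.s2, Hg.s0, Hg.s2]
      linear_combination c + b + a
    linear_combination D4n_inj ψ e

/-- `B(e,f) ≠ 0` -/
theorem D4n_B {K : Type} [Field K] (ψ : K →+* K) {e0 e1 e2 e3 e4 e5 e6 e7 : K}
    {f0 f1 f2 f3 f4 f5 f6 f7 : K} (He : D4n_Oct ψ e0 e1 e2 e3 e4 e5 e6 e7)
    (Hf : D4n_Oct ψ f0 f1 f2 f3 f4 f5 f6 f7) (hind : e0 * f2 ≠ f0 * e2) :
    (e5 * e6 * e7) * (f2 * f3 * f4) + (e1 * e2 * e3 - e3 * e4 * e5) * (f4 * f5 * f6) +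
      (e3 * e4 * e5) * (f6 * f7 * f0) ≠ 0 := by
  intro h
  have hp := congrArg ψ h
  simp only [map_add, map_sub, map_mul, map_zero, He.s1, He.s2, He.s3, He.s4, He.s5, He.s6,
    He.s7, Hf.s0, Hf.s2, Hf.s3, Hf.s4, Hf.s5, Hf.s6, Hf.s7] at hp
  have relF : f1 * f2 * f3 - f3 * f4 * f5 + f5 * f6 * f7 - f7 * f0 * f1 = 0 := by
    linear_combination (-f3) * Hf.i6 - f7 * Hf.i2 + f3 * f7 * Hf.t0
  have h1 : (e1 * e2 * e3) * (e4 * e5 * e6) + (e3 * e4 * e5) * (e6 * e7 * e0 - e4 * e5 * e6) +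
      (e5 * e6 * e7) * (e2 * e3 * e4) = 0 := by
    linear_combination e3 * e4 * e5 * e6 * He.i1
  have h4 : (f1 * f2 * f3) * (f4 * f5 * f6) + (f3 * f4 * f5) * (f6 * f7 * f0 - f4 * f5 * f6) +
      (f5 * f6 * f7) * (f2 * f3 * f4) = 0 := by
    linear_combination f3 * f4 * f5 * f6 * Hf.i1
  have h3 : (e1 * e2 * e3) * (f4 * f5 * f6) + (e3 * e4 * e5) * (f6 * f7 * f0 - f4 * f5 * f6) +
      (e5 * e6 * e7) * (f2 * f3 * f4) = 0 := by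
    linear_combination h
  have h2 : (f1 * f2 * f3) * (e4 * e5 * e6) + (f3 * f4 * f5) * (e6 * e7 * e0 - e4 * e5 * e6) +
      (f5 * f6 * f7) * (e2 * e3 * e4) = 0 := by
    linear_combination hp + (e4 * e5 * e6) * relF
  have key : (e3 * e4 * e5) * (f5 * f6 * f7) = (e5 * e6 * e7) * (f3 * f4 * f5) ∧
      (e1 * e2 * e3) * (f5 * f6 * f7) = (e5 * e6 * e7) * (f1 * f2 * f3) := by
    rcases D4n_cross (e1 * e2 * e3) (e3 * e4 * e5) (e5 * e6 * e7)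
      (f1 * f2 * f3) (f3 * f4 * f5) (f5 * f6 * f7)
      (e4 * e5 * e6) (e6 * e7 * e0 - e4 * e5 * e6) (e2 * e3 * e4)
      (f4 * f5 * f6) (f6 * f7 * f0 - f4 * f5 * f6) (f2 * f3 * f4)
      h1 h2 h3 h4 with ⟨a, b, c⟩ | ⟨a, b, c⟩
    · exact ⟨by linear_combination a, by linear_combination -b⟩
    · constructor
      · have e : ψ ((e3 * e4 * e5) * (f5 * f6 * f7) - (e5 * e6 * e7) * (f3 * f4 * f5)) = 0 := by
          simp only [map_sub, map_mul, He.s3, He.s4, He.s5, He.s6, He.s7, Hf.s3, Hf.s4, Hf.s5,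
            Hf.s6, Hf.s7]
          linear_combination c
        linear_combination D4n_inj ψ e
      · have e : ψ ((e1 * e2 * e3) * (f5 * f6 * f7) - (e5 * e6 * e7) * (f1 * f2 * f3)) = 0 := by
          simp only [map_sub, map_mul, He.s1, He.s2, He.s3, He.s5, He.s6, He.s7, Hf.s1, Hf.s2,
            Hf.s3, Hf.s5, Hf.s6, Hf.s7]
          linear_combination -a + b
        linear_combination D4n_inj ψ e
  obtain ⟨k1, k2⟩ := key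
  have k3 := congrArg ψ k2
  simp only [map_mul, He.s1, He.s2, He.s3, He.s5, He.s6, He.s7, Hf.s1, Hf.s2,
            Hf.s3, Hf.s5, Hf.s6, Hf.s7] at k3
  apply hind
  have hn : (e3 * e4 * e5 * e6 * e7) * (f3 * f4 * f5 * f6 * f7) ≠ 0 := by
    have := He.n3; have := He.n4; have := He.n5; have := He.n6; have := He.n7
    have := Hf.n3; have := Hf.n4; have := Hf.n5; have := Hf.n6; have := Hf.n7
    simp_all
  apply mul_left_cancel₀ hn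
  linear_combination (e6 * e7 * e0 * (f2 * f3 * f4)) * k1 - (e5 * e6 * e7) * (f3 * f4 * f5) * k3

theorem D4n_Oct.shift {K : Type} [Field K] {ψ : K →+* K} {e0 e1 e2 e3 e4 e5 e6 e7 : K}
    (h : D4n_Oct ψ e0 e1 e2 e3 e4 e5 e6 e7) : D4n_Oct ψ e2 e3 e4 e5 e6 e7 e0 e1 :=
  ⟨h.s2, h.s3, h.s4, h.s5, h.s6, h.s7, h.s0, h.s1, h.n2, h.n3, h.n4, h.n5, h.n6, h.n7, h.n0, h.n1,
    by linear_combination h.t0, by linear_combination h.t1, h.i2, h.i3, h.i4, h.i5, h.i6, h.i7,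
    h.i0, h.i1⟩

theorem D4n_t {K : Type} [Field K] {ψ : K →+* K} {e0 e1 e2 e3 e4 e5 e6 e7 : K}
    {f0 f2 f3 f4 f5 f6 f7 : K} (He : D4n_Oct ψ e0 e1 e2 e3 e4 e5 e6 e7) :
    f4 * (e6 * f2 * f3 / e3 - e2 * f5 * f6 / e5) - f6 * (e0 * f4 * f5 / e5 - e4 * f7 * f0 / e7) =
    ((e5 * e6 * e7) * (f2 * f3 * f4) + (e1 * e2 * e3 - e3 * e4 * e5) * (f4 * f5 * f6) +
      (e3 * e4 * e5) * (f6 * f7 * f0)) / (e3 * e5 * e7) := by
  have := He.n3; have := He.n5; have := He.n7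
  field_simp
  linear_combination (-e3 * f4 * f5 * f6) * He.i1

theorem D4n_Bs {K : Type} [Field K] {ψ : K →+* K} {e0 e1 e2 e3 e4 e5 e6 e7 : K}
    {f0 f1 f2 f3 f4 f5 f6 f7 : K} (He : D4n_Oct ψ e0 e1 e2 e3 e4 e5 e6 e7)
    (Hf : D4n_Oct ψ f0 f1 f2 f3 f4 f5 f6 f7) :
    ((e7 * e0 * e1) * (f4 * f5 * f6) + (e3 * e4 * e5 - e5 * e6 * e7) * (f6 * f7 * f0) +
      (e5 * e6 * e7) * (f0 * f1 * f2)) =
    (e5 * e6 * e7) * (f2 * f3 * f4) + (e1 * e2 * e3 - e3 * e4 * e5) * (f4 * f5 * f6) +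
      (e3 * e4 * e5) * (f6 * f7 * f0) := by
  have relE : e1 * e2 * e3 - e3 * e4 * e5 + e5 * e6 * e7 - e7 * e0 * e1 = 0 := by
    linear_combination (-e3) * He.i6 - e7 * He.i2 + e3 * e7 * He.t0
  have relF : f2 * f3 * f4 - f4 * f5 * f6 + f6 * f7 * f0 - f0 * f1 * f2 = 0 := by
    linear_combination (-f4) * Hf.i7 - f0 * Hf.i3 + f4 * f0 * Hf.t1
  linear_combination (-(f4 * f5 * f6)) * relE - (e5 * e6 * e7) * relF

theorem D4n_dot {K : Type} [Field K] {ψ : K →+* K} {e0 e1 e2 e3 e4 e5 e6 e7 : K}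
    {f0 f1 f2 f3 f4 f5 f6 f7 : K} {g0 g1 g2 g3 g4 g5 g6 g7 : K}
    (He : D4n_Oct ψ e0 e1 e2 e3 e4 e5 e6 e7)
    (Hf : D4n_Oct ψ f0 f1 f2 f3 f4 f5 f6 f7) (Hg : D4n_Oct ψ g0 g1 g2 g3 g4 g5 g6 g7)
    (hef : e0 * f2 ≠ f0 * e2) (hge : e0 * g2 ≠ g0 * e2) :
    g0 * (f4 * (e6 * f2 * f3 / e3 - e2 * f5 * f6 / e5)) +
      (-g2) * (-(f6 * (e0 * f4 * f5 / e5 - e4 * f7 * f0 / e7))) +
      g4 * (f0 * (e2 * f6 * f7 / e7 - e6 * f1 * f2 / e1)) +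
      (-g6) * (-(f2 * (e4 * f0 * f1 / e1 - e0 * f3 * f4 / e3))) ≠ 0 := by
  have h1 := D4n_t (f0 := f0) (f2 := f2) (f3 := f3) (f4 := f4) (f5 := f5) (f6 := f6) (f7 := f7) He
  have h2 := D4n_t (f0 := f2) (f2 := f4) (f3 := f5) (f4 := f6) (f5 := f7) (f6 := f0) (f7 := f1)
    He.shift
  have h3 := D4n_t (f0 := f4) (f2 := f6) (f3 := f7) (f4 := f0) (f5 := f1) (f6 := f2) (f7 := f3)
    He.shift.shift
  have b2 := D4n_Bs He Hf
  have b3 := D4n_Bs He.shift Hf.shift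
  rw [b2] at h2
  rw [b3, b2] at h3
  have hB := D4n_B ψ He Hf hef
  have hH := D4n_H ψ He Hg hge
  set B := (e5 * e6 * e7) * (f2 * f3 * f4) + (e1 * e2 * e3 - e3 * e4 * e5) * (f4 * f5 * f6) +
      (e3 * e4 * e5) * (f6 * f7 * f0) with hBdef
  set t0 := f4 * (e6 * f2 * f3 / e3 - e2 * f5 * f6 / e5)
  set t1 := f6 * (e0 * f4 * f5 / e5 - e4 * f7 * f0 / e7)
  set t2 := f0 * (e2 * f6 * f7 / e7 - e6 * f1 * f2 / e1)
  set t3 := f2 * (e4 * f0 * f1 / e1 - e0 * f3 * f4 / e3)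
  have n1 := He.n1; have n3 := He.n3; have n5 := He.n5; have n7 := He.n7
  have k1 : t0 - t1 = B / (e1 * e3 * e5 * e7) * e1 := by rw [h1]; field_simp
  have k2 : t1 - t2 = B / (e1 * e3 * e5 * e7) * e3 := by rw [h2]; field_simp
  have k3 : t2 - t3 = B / (e1 * e3 * e5 * e7) * e5 := by rw [h3]; field_simp
  have e : g0 * t0 + (-g2) * (-t1) + g4 * t2 + (-g6) * (-t3) =
      -(B / (e1 * e3 * e5 * e7)) * (g2 * e1 + g4 * (e1 + e3) - g6 * e7) := by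
    linear_combination t0 * Hg.t0 - (g2 + g4 + g6) * k1 - (g4 + g6) * k2 - g6 * k3 -
      (B / (e1 * e3 * e5 * e7)) * g6 * He.t1
  rw [e]
  refine mul_ne_zero (neg_ne_zero.mpr (div_ne_zero hB ?_)) hH
  exact mul_ne_zero (mul_ne_zero (mul_ne_zero n1 n3) n5) n7

theorem D4n_tne {K : Type} [Field K] {ψ : K →+* K} {e0 e1 e2 e3 e4 e5 e6 e7 : K}
    {f0 f1 f2 f3 f4 f5 f6 f7 : K}
    (He : D4n_Oct ψ e0 e1 e2 e3 e4 e5 e6 e7)
    (Hf : D4n_Oct ψ f0 f1 f2 f3 f4 f5 f6 f7)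
    (hef : e0 * f2 ≠ f0 * e2) :
    f4 * (e6 * f2 * f3 / e3 - e2 * f5 * f6 / e5) ≠ 0 := by
  intro h
  have h' := congrArg (fun x => ψ (ψ x)) h
  simp only [map_mul, map_sub, map_div₀, map_zero, He.s2, He.s3, He.s4, He.s5, He.s6, He.s7,
    Hf.s2, Hf.s3, Hf.s4, Hf.s5, Hf.s6, Hf.s7] at h'
  have h1 := D4n_t (f0 := f0) (f2 := f2) (f3 := f3) (f4 := f4) (f5 := f5) (f6 := f6) (f7 := f7) He
  rw [h, h'] at h1
  have hB := D4n_B ψ He Hf hef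
  have n3 := He.n3; have n5 := He.n5; have n7 := He.n7
  rw [sub_zero, eq_comm, div_eq_zero_iff] at h1
  rcases h1 with h1 | h1
  · exact hB h1
  · exact mul_ne_zero (mul_ne_zero n3 n5) n7 h1

/-- the adjugate of a cyclic bidiagonal matrix -/
theorem D4n_adj {K : Type} [Field K] (b0 b1 b2 b3 a0 a1 a2 a3 : K) :
    (!![b0, a0, 0, 0; 0, b1, a1, 0; 0, 0, b2, a2; a3, 0, 0, b3] :
      Matrix (Fin 4) (Fin 4) K).adjugate =
    !![b1 * b2 * b3, -(a0 * b2 * b3), a0 * a1 * b3, -(a0 * a1 * a2);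
       -(a1 * a2 * a3), b0 * b2 * b3, -(b0 * a1 * b3), b0 * a1 * a2;
       b1 * a2 * a3, -(a0 * a2 * a3), b0 * b1 * b3, -(b0 * b1 * a2);
       -(b1 * b2 * a3), a0 * b2 * a3, -(a0 * a1 * a3), b0 * b1 * b2] := by
  ext i j
  rw [Matrix.adjugate_fin_succ_eq_det_submatrix]
  fin_cases i <;> fin_cases j <;>
    simp [Matrix.det_fin_three, Fin.succAbove, Fin.lt_def] <;> ring

theorem D4n_mulexp {K : Type} [Field K] (e0 e1 e2 e3 e4 e5 e6 e7 : K)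
    (f0 f1 f2 f3 f4 f5 f6 f7 : K) (h1 : f1 ≠ 0) (h3 : f3 ≠ 0) (h5 : f5 ≠ 0) (h7 : f7 ≠ 0) :
    (!![e6 / e3, e2 / e5, 0, 0; 0, e0 / e5, e4 / e7, 0; 0, 0, e2 / e7, e6 / e1;
        e0 / e3, 0, 0, e4 / e1] : Matrix (Fin 4) (Fin 4) K) *
      (!![f6 / f3, f2 / f5, 0, 0; 0, f0 / f5, f4 / f7, 0; 0, 0, f2 / f7, f6 / f1;
        f0 / f3, 0, 0, f4 / f1] : Matrix (Fin 4) (Fin 4) K).adjugate =
    (f1 * f3 * f5 * f7)⁻¹ • Matrix.vecMulVec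
      ![f4 * (e6 * f2 * f3 / e3 - e2 * f5 * f6 / e5),
        -(f6 * (e0 * f4 * f5 / e5 - e4 * f7 * f0 / e7)),
        f0 * (e2 * f6 * f7 / e7 - e6 * f1 * f2 / e1),
        -(f2 * (e4 * f0 * f1 / e1 - e0 * f3 * f4 / e3))] ![f0, -f2, f4, -f6] := by
  rw [D4n_adj]
  ext i j
  rw [Matrix.mul_apply, Matrix.smul_apply, Matrix.vecMulVec_apply, Fin.sum_univ_four]
  fin_cases i <;> fin_cases j <;> simp <;> field_simp <;> ring

theorem D4n_map {K : Type} [Field K] (ψ : K →+* K) (e : K) : (T4 ψ e).map (eval 1) =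
    !![ψ^[6] e / ψ^[3] e, ψ^[2] e / ψ^[5] e, 0, 0; 0, e / ψ^[5] e, ψ^[4] e / ψ^[7] e, 0;
      0, 0, ψ^[2] e / ψ^[7] e, ψ^[6] e / ψ e; e / ψ^[3] e, 0, 0, ψ^[4] e / ψ e] := by
  ext i j
  rw [Matrix.map_apply, T4]
  fin_cases i <;> fin_cases j <;> simp

/-- the column vector -/
noncomputable def D4n_a {K : Type} [Field K] (ψ : K →+* K) (e f : K) : Fin 4 → K :=
  ![ψ^[4] f * (ψ^[6] e * ψ^[2] f * ψ^[3] f / ψ^[3] e - ψ^[2] e * ψ^[5] f * ψ^[6] f / ψ^[5] e),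
    -(ψ^[6] f * (e * ψ^[4] f * ψ^[5] f / ψ^[5] e - ψ^[4] e * ψ^[7] f * f / ψ^[7] e)),
    f * (ψ^[2] e * ψ^[6] f * ψ^[7] f / ψ^[7] e - ψ^[6] e * ψ f * ψ^[2] f / ψ e),
    -(ψ^[2] f * (ψ^[4] e * f * ψ f / ψ e - e * ψ^[3] f * ψ^[4] f / ψ^[3] e))]

/-- the row vector -/
noncomputable def D4n_v {K : Type} [Field K] (ψ : K →+* K) (f : K) : Fin 4 → K :=
  ![f, -ψ^[2] f, ψ^[4] f, -ψ^[6] f]

theorem D4n_letter {K : Type} [Field K] (ψ : K →+* K) (e f : K) (h1 : ψ f ≠ 0)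
    (h3 : ψ^[3] f ≠ 0) (h5 : ψ^[5] f ≠ 0) (h7 : ψ^[7] f ≠ 0) :
    (T4 ψ e * (T4 ψ f).adjugate).map (eval 1) =
      (ψ f * ψ^[3] f * ψ^[5] f * ψ^[7] f)⁻¹ • Matrix.vecMulVec (D4n_a ψ e f) (D4n_v ψ f) := by
  have h : (T4 ψ e * (T4 ψ f).adjugate).map (eval 1) =
      (T4 ψ e).map (eval 1) * ((T4 ψ f).map (eval 1)).adjugate := by
    have e1 : ∀ M : Matrix (Fin 4) (Fin 4) K[X], M.map (eval 1) =
      (evalRingHom (1 : K)).mapMatrix M := fun M => rfl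
    rw [e1, e1, e1, map_mul, RingHom.map_adjugate]
  rw [h, D4n_map, D4n_map, D4n_mulexp _ _ _ _ _ _ _ _ _ _ _ _ _ _ _ _ h1 h3 h5 h7]
  rfl

theorem D4n_gen {K : Type} [Field K] {ι : Type} (A : ι × ι → Matrix (Fin 4) (Fin 4) K)
    (s : ι → K) (a : ι × ι → Fin 4 → K) (v : ι → Fin 4 → K) (hs : ∀ i, s i ≠ 0)
    (hA : ∀ p, A p = s p.2 • Matrix.vecMulVec (a p) (v p.2)) (hv : ∀ i, v i 0 ≠ 0)
    (hd : ∀ (i : ι) (p : ι × ι), i ≠ p.1 → p.1 ≠ p.2 → v i ⬝ᵥ a p ≠ 0) :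
    ∀ (L : List (ι × ι)) (p : ι × ι), Red (p :: L) →
      ∃ c : K, c ≠ 0 ∧ ∃ w : Fin 4 → K, w 0 ≠ 0 ∧
        ((p :: L).map A).prod = c • Matrix.vecMulVec (a p) w := by
  intro L
  induction L with
  | nil =>
    intro p _
    exact ⟨s p.2, hs _, v p.2, hv _, by simp [hA]⟩
  | cons q L ih =>
    intro p hp
    have hq : Red (q :: L) := ⟨fun r hr => hp.1 r (List.mem_cons_of_mem _ hr), hp.2.tail⟩
    have hpq : p.2 ≠ q.1 := by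
      have := hp.2
      rw [List.isChain_cons_cons] at this
      exact this.1
    have hqq : q.1 ≠ q.2 := hq.1 q List.mem_cons_self
    obtain ⟨c, hc, w, hw, e⟩ := ih q hq
    refine ⟨s p.2 * (c * (v p.2 ⬝ᵥ a q)), mul_ne_zero (hs _) (mul_ne_zero hc (hd _ _ hpq hqq)),
      w, hw, ?_⟩
    rw [List.map_cons, List.prod_cons, e, hA p, Matrix.smul_mul, Matrix.mul_smul,
      Matrix.vecMulVec_mul_vecMulVec, smul_smul]
    ext i j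
    simp only [Matrix.smul_apply, Matrix.vecMulVec_apply, smul_eq_mul, Pi.smul_apply]
    ring

/-- Non-vanishing of the leading coefficients (task D4n). -/
theorem ne4 {K : Type} [Field K] (ψ : K →+* K) (hψ : ∀ a, ψ^[8] a = a) {ι : Type}
    (e : ι → K) (h0 : ∀ i, e i ≠ 0)
    (htr : ∀ i, e i + ψ^[2] (e i) + ψ^[4] (e i) + ψ^[6] (e i) = 0)
    (hiso : ∀ i, e i * ψ (e i) + ψ (e i) * ψ^[6] (e i) + ψ^[6] (e i) * ψ^[7] (e i) =
      ψ^[3] (e i) * ψ^[4] (e i))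
    (hind : ∀ i j, i ≠ j → e i * ψ^[2] (e j) ≠ e j * ψ^[2] (e i))
    (L : List (ι × ι)) (hL : Red L) (hne : L ≠ []) :
    (L.map fun p => (T4 ψ (e p.1) * (T4 ψ (e p.2)).adjugate).map (eval 1)).prod ≠ 0 := by
  have ho := fun i => D4n_oct ψ hψ (e i) (h0 i) (htr i) (hiso i)
  obtain ⟨p, L', rfl⟩ := List.exists_cons_of_ne_nil hne
  obtain ⟨c, hc, w, hw, h⟩ := D4n_gen
    (fun p => (T4 ψ (e p.1) * (T4 ψ (e p.2)).adjugate).map (eval 1))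
    (fun i => (ψ (e i) * ψ^[3] (e i) * ψ^[5] (e i) * ψ^[7] (e i))⁻¹)
    (fun p => D4n_a ψ (e p.1) (e p.2)) (fun i => D4n_v ψ (e i))
    (fun i => inv_ne_zero (mul_ne_zero (mul_ne_zero (mul_ne_zero (ho i).n1 (ho i).n3) (ho i).n5)
      (ho i).n7))
    (fun p => D4n_letter ψ _ _ (ho p.2).n1 (ho p.2).n3 (ho p.2).n5 (ho p.2).n7)
    (fun i => h0 i)
    (by
      intro i p hip hpp
      have := D4n_dot (ho p.1) (ho p.2) (ho i) (hind _ _ hpp) (hind _ _ hip.symm)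
      simp only [D4n_a, D4n_v, dotProduct, Fin.sum_univ_four]
      exact this)
    L' p hL
  rw [h]
  intro h0'
  have h00 := congrFun (congrFun h0' 0) 0
  rw [Matrix.smul_apply, Matrix.vecMulVec_apply, Matrix.zero_apply, smul_eq_mul] at h00
  have hpp : p.1 ≠ p.2 := hL.1 p List.mem_cons_self
  exact mul_ne_zero hc (mul_ne_zero (D4n_tne (ho p.1) (ho p.2) (hind _ _ hpp)) hw) h00

end Pool.Agent.H7R2.LG
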