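import Pool.Agent.H7R2.LG.GraphD
import Pool.Agent.H7R2.LG.Datum3
import Pool.Agent.H7R2.LG.Count3
import Pool.Agent.H7R2.LG.Datum4
import Pool.Agent.H7R2.LG.Ne4
import Pool.Agent.H7R2.LG.Count4
import Pool.Agent.H7R2.LG.Bnd

set_option autoImplicit false

/-! Task E1 (helper704): the core theorems, assembled from `graphD`, the data, the counts and the
numerical bounds. -/

namespace Pool.Agent.H7R2.LG

open Matrix Polynomial

theorem E1_pow_card {K : Type} [Field K] [Finite K] (a : K) : a ^ (Nat.card K) = a := by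
  have := Fintype.ofFinite K
  rw [Nat.card_eq_fintype_card]
  exact FiniteField.pow_card a

theorem E1_iter {K : Type} [Field K] (ψ : K →+* K) (q : ℕ) (hψ : ∀ a, ψ a = a ^ q) (n : ℕ)
    (a : K) : ψ^[n] a = a ^ (q ^ n) := by
  induction n with
  | zero => simp
  | succ n ih => rw [Function.iterate_succ_apply', ih, hψ, ← pow_mul, pow_succ]

theorem datum4 {K : Type} [Field K] (ψ : K →+* K) (hψ : ∀ a, ψ^[8] a = a) {ι : Type}
    (e : ι → K) (h0 : ∀ i, e i ≠ 0)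
    (htr : ∀ i, e i + ψ^[2] (e i) + ψ^[4] (e i) + ψ^[6] (e i) = 0)
    (hiso : ∀ i, e i * ψ (e i) + ψ (e i) * ψ^[6] (e i) + ψ^[6] (e i) * ψ^[7] (e i) =
      ψ^[3] (e i) * ψ^[4] (e i))
    (hind : ∀ i j, i ≠ j → e i * ψ^[2] (e j) ≠ e j * ψ^[2] (e i)) :
    ∃ D : Datum K 3 ι, (∀ a, D.σ a = ψ (ψ a)) ∧
      ∀ i, D.c i = (e i * ψ^[2] (e i) * ψ^[4] (e i) * ψ^[6] (e i)) /
        (ψ (e i) * ψ^[3] (e i) * ψ^[5] (e i) * ψ^[7] (e i)) :=
  datum4_of ψ hψ e h0 hiso (fun L hL hne => ne4 ψ hψ e h0 htr hiso hind L hL hne)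

/-- `δ`-regular graphs, `δ ≤ q + 1`. -/
theorem core3 (q : ℕ) (hq : IsPrimePow q) (δ : ℕ) (hδ : δ ≤ q + 1) (m : ℕ) (hm : 1 ≤ m) :
    ∃ (V : Type) (_ : Fintype V) (_ : Nonempty V) (Γ : SimpleGraph V) (_ : DecidableRel Γ.Adj),
      Γ.IsRegularOfDegree δ ∧ ((4 * m : ℕ) : ℕ∞) ≤ Γ.egirth ∧ Γ.Colorable 2 ∧
      Fintype.card V ≤ 2 * ((q ^ 2 + q + 1) * q ^ (3 * (m - 1) - (m - 1) / 3)) := by
  have hq1 : 1 < q := hq.one_lt
  obtain ⟨p, f, hp, hf, hpq⟩ := (isPrimePow_nat_iff _).1 hq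
  have : Fact p.Prime := ⟨hp⟩
  have hK : Nat.card (GaloisField p (3 * f)) = q ^ 3 := by
    rw [GaloisField.card p (3 * f) (by omega), ← hpq]; ring
  have : Finite (GaloisField p (3 * f)) := Nat.finite_of_card_ne_zero (by rw [hK]; positivity)
  obtain ⟨σ, hσ⟩ : ∃ σ : GaloisField p (3 * f) →+* GaloisField p (3 * f), ∀ a, σ a = a ^ q :=
    ⟨iterateFrobenius (GaloisField p (3 * f)) p f, fun a => by
      rw [iterateFrobenius_def, hpq]⟩
  have hσ3 : ∀ a, σ (σ (σ a)) = a := by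
    intro a
    have h := E1_iter σ q hσ 3 a
    rw [← hK, E1_pow_card] at h
    simpa using h
  obtain ⟨ξ, h0, hiso, hind⟩ := count3 q hq1 hK σ hσ
  obtain ⟨D, hDσ, hDc⟩ := datum3 σ hσ3 (fun i : Fin δ => ξ (Fin.castLE hδ i)) (fun i => h0 _)
    (fun i => hiso _) (fun i j hij => hind _ _ (fun h => hij (Fin.castLE_injective hδ h)))
  obtain ⟨V, i1, i2, Γ, i3, h1, h2, h3, h4⟩ := graphD D ⊥
    (fun i j => ⟨1, one_mem _, by simp [hDc]⟩) m hm
  refine ⟨V, i1, i2, Γ, i3, ?_, h2, h3, h4.trans (Nat.mul_le_mul_left 2 ?_)⟩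
  · simpa using h1
  · rw [hDσ]
    exact bnd3 q hq1 hK σ hσ m hm

/-- `δ`-regular graphs, `δ ≤ q³ + 1`. -/
theorem core4 (q : ℕ) (hq : IsPrimePow q) (δ : ℕ) (hδ : δ ≤ q ^ 3 + 1) (m : ℕ) (hm : 1 ≤ m) :
    ∃ (V : Type) (_ : Fintype V) (_ : Nonempty V) (Γ : SimpleGraph V) (_ : DecidableRel Γ.Adj),
      Γ.IsRegularOfDegree δ ∧ ((4 * m : ℕ) : ℕ∞) ≤ Γ.egirth ∧ Γ.Colorable 2 ∧
      Fintype.card V ≤ 2 * ((q + 1) * (q ^ 6 + q ^ 4 + q ^ 2 + 1) *
        q ^ (2 * (4 * (m - 1) - (m - 1) / 4))) := by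
  have hq1 : 1 < q := hq.one_lt
  obtain ⟨p, f, hp, hf, hpq⟩ := (isPrimePow_nat_iff _).1 hq
  have : Fact p.Prime := ⟨hp⟩
  have hK : Nat.card (GaloisField p (8 * f)) = q ^ 8 := by
    rw [GaloisField.card p (8 * f) (by omega), ← hpq]; ring
  have : Finite (GaloisField p (8 * f)) := Nat.finite_of_card_ne_zero (by rw [hK]; positivity)
  obtain ⟨ψ, hψ⟩ : ∃ ψ : GaloisField p (8 * f) →+* GaloisField p (8 * f), ∀ a, ψ a = a ^ q :=
    ⟨iterateFrobenius (GaloisField p (8 * f)) p f, fun a => by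
      rw [iterateFrobenius_def, hpq]⟩
  have hψ8 : ∀ a, ψ^[8] a = a := by
    intro a
    rw [E1_iter ψ q hψ 8 a, ← hK, E1_pow_card]
  obtain ⟨e, h0, htr, hiso, hind, -⟩ := count4 q hq1 hK ψ hψ
  obtain ⟨D, hDσ, hDc⟩ := datum4 ψ hψ8 (fun i : Fin δ => e (Fin.castLE hδ i)) (fun i => h0 _)
    (fun i => htr _) (fun i => hiso _)
    (fun i j hij => hind _ _ (fun h => hij (Fin.castLE_injective hδ h)))
  have hc1 : ∀ i, D.c i ^ (q + 1) = 1 := by
    intro i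
    have hc0 := D.hc i
    have h8 := hψ8 (e (Fin.castLE hδ i))
    simp only [Function.iterate_succ_apply, Function.iterate_zero, id_eq] at h8
    have h1 : ψ (D.c i) * D.c i = 1 := by
      have hn : D.c i ≠ 0 := D.hc i
      rw [hDc i] at hn ⊢
      simp only [Function.iterate_succ_apply, Function.iterate_zero, id_eq] at hn ⊢
      simp only [map_div₀, map_mul, h8]
      have hx : ∀ a : GaloisField p (8 * f), a ≠ 0 → ψ a ≠ 0 := fun a ha => by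
        simpa using ha
      have e0 := h0 (Fin.castLE hδ i)
      have e1 := hx _ e0
      have e2 := hx _ e1
      have e3 := hx _ e2
      have e4 := hx _ e3
      have e5 := hx _ e4
      have e6 := hx _ e5
      have e7 := hx _ e6
      field_simp
    rw [pow_succ, ← hψ]
    exact h1
  obtain ⟨V, i1, i2, Γ, i3, h1, h2, h3, h4⟩ := graphD D
    (powMonoidHom (q + 1) : (GaloisField p (8 * f))ˣ →* (GaloisField p (8 * f))ˣ).ker
    (fun i j => ⟨Units.mk0 (D.c i) (D.hc i) * (Units.mk0 (D.c j) (D.hc j))⁻¹, by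
      rw [MonoidHom.mem_ker]
      ext
      simp [mul_pow, hc1], by
      have := D.hc j
      simp [this]⟩) m hm
  refine ⟨V, i1, i2, Γ, i3, ?_, h2, h3, h4.trans (Nat.mul_le_mul_left 2 ?_)⟩
  · simpa using h1
  · refine bnd4' q hq1 hK D.σ (fun a => ?_) _ (fun u hu => ?_) m hm
    · rw [hDσ, hψ, hψ, ← pow_mul, sq]
    · rw [MonoidHom.mem_ker] at hu
      simpa using hu

/-- `δ`-regular graphs, `δ ≤ q³ + 1`, `q` a power of two. -/
theorem core4even (q : ℕ) (hq : IsPrimePow q) (hq2 : Even q) (δ : ℕ) (hδ : δ ≤ q ^ 3 + 1)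
    (m : ℕ) (hm : 1 ≤ m) :
    ∃ (V : Type) (_ : Fintype V) (_ : Nonempty V) (Γ : SimpleGraph V) (_ : DecidableRel Γ.Adj),
      Γ.IsRegularOfDegree δ ∧ ((4 * m : ℕ) : ℕ∞) ≤ Γ.egirth ∧ Γ.Colorable 2 ∧
      Fintype.card V ≤ 2 * ((q ^ 6 + q ^ 4 + q ^ 2 + 1) *
        q ^ (2 * (4 * (m - 1) - (m - 1) / 4))) := by
  have hq1 : 1 < q := hq.one_lt
  obtain ⟨p, f, hp, hf, hpq⟩ := (isPrimePow_nat_iff _).1 hq
  have : Fact p.Prime := ⟨hp⟩
  have hK : Nat.card (GaloisField p (8 * f)) = q ^ 8 := by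
    rw [GaloisField.card p (8 * f) (by omega), ← hpq]; ring
  have : Finite (GaloisField p (8 * f)) := Nat.finite_of_card_ne_zero (by rw [hK]; positivity)
  obtain ⟨ψ, hψ⟩ : ∃ ψ : GaloisField p (8 * f) →+* GaloisField p (8 * f), ∀ a, ψ a = a ^ q :=
    ⟨iterateFrobenius (GaloisField p (8 * f)) p f, fun a => by
      rw [iterateFrobenius_def, hpq]⟩
  have hψ8 : ∀ a, ψ^[8] a = a := by
    intro a
    rw [E1_iter ψ q hψ 8 a, ← hK, E1_pow_card]
  obtain ⟨e, h0, htr, hiso, hind, hev⟩ := count4 q hq1 hK ψ hψ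
  obtain ⟨D, hDσ, hDc⟩ := datum4 ψ hψ8 (fun i : Fin δ => e (Fin.castLE hδ i)) (fun i => h0 _)
    (fun i => htr _) (fun i => hiso _)
    (fun i j hij => hind _ _ (fun h => hij (Fin.castLE_injective hδ h)))
  have hc1 : ∀ i, D.c i = 1 := by
    intro i
    have hn : D.c i ≠ 0 := D.hc i
    rw [hDc i] at hn ⊢
    rw [← hev hq2 (Fin.castLE hδ i)] at hn ⊢
    have := (div_ne_zero_iff.1 hn).1
    exact div_self this
  obtain ⟨V, i1, i2, Γ, i3, h1, h2, h3, h4⟩ := graphD D ⊥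
    (fun i j => ⟨1, one_mem _, by simp [hc1]⟩) m hm
  refine ⟨V, i1, i2, Γ, i3, ?_, h2, h3, h4.trans (Nat.mul_le_mul_left 2 ?_)⟩
  · simpa using h1
  · refine bnd4 q hq1 hK D.σ (fun a => ?_) m hm
    rw [hDσ, hψ, hψ, ← pow_mul, sq]

end Pool.Agent.H7R2.LG

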