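import Pool.Agent.H7R2.LG.Core
import Pool.Agent.H7R2.LG.Turan
import Pool.Agent.H258R2.GU.Dense3

set_option autoImplicit false

/-! Dense graphs of girth greater than `2k`: the tower of `U(4)` graphs with level structure at
`τ` for odd `k`, and the graphs of `GU4.dense3` (level structure at two places) for even `k`. -/

namespace Pool.Agent.H7R2.LG

theorem dense_odd (k : ℕ) (hk : Odd k) : ∃ c : ℝ, 0 < c ∧ ∀ᶠ n : ℕ in Filter.atTop,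
    ∃ G : SimpleGraph (Fin n), ((2 * k : ℕ) : ℕ∞) < G.egirth ∧
      c * (n : ℝ) ^ (1 + 3 / (((4 * k + 2 - 2 * (k / 8) : ℕ) : ℝ))) ≤ (G.edgeSet.ncard : ℝ) := by
  obtain ⟨j, rfl⟩ := hk
  obtain ⟨c, hc, N, h⟩ := E2_turan (j + 1) (by omega)
    (fun q hq hq2 δ hδ => core4even q hq hq2 δ hδ (j + 1) (by omega))
  refine ⟨c, hc, ?_⟩
  filter_upwards [Filter.eventually_ge_atTop N] with n hn
  obtain ⟨G, hdec, hg, -, hE⟩ := h n hn
  refine ⟨G, lt_of_lt_of_le ?_ hg, ?_⟩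
  · exact_mod_cast (by omega : 2 * (2 * j + 1) < 4 * (j + 1))
  · have e1 : (8 * ((j + 1 : ℕ) : ℝ) - 2 - 2 * ((((j + 1) - 1) / 4 : ℕ) : ℝ)) =
        ((4 * (2 * j + 1) + 2 - 2 * ((2 * j + 1) / 8) : ℕ) : ℝ) := by
      have h1 : ((j + 1) - 1) / 4 = (2 * j + 1) / 8 := by omega
      rw [h1, Nat.cast_sub (by omega)]
      push_cast; ring
    rw [e1] at hE
    have e2 : G.edgeSet.ncard = G.edgeFinset.card := by
      rw [← SimpleGraph.coe_edgeFinset, Set.ncard_coe_finset]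
    rw [e2]
    exact hE

theorem dense_four (k : ℕ) (hk : 4 ≤ k) : ∃ c : ℝ, 0 < c ∧ ∀ᶠ n : ℕ in Filter.atTop,
    ∃ G : SimpleGraph (Fin n), ((2 * k : ℕ) : ℕ∞) < G.egirth ∧
      c * (n : ℝ) ^ (1 + 3 / (((4 * k + 4 - k / 4 : ℕ) : ℝ))) ≤ (G.edgeSet.ncard : ℝ) := by
  obtain ⟨c, hc, h⟩ := GU4.dense3 (k / 4) (k + 1 - 4 * (k / 4)) (by omega) (by omega)
  refine ⟨c, hc, ?_⟩
  filter_upwards [h] with n hn
  obtain ⟨H, hH, hE⟩ := hn
  have e : (15 * ((k / 4 : ℕ) : ℝ) + 4 * ((k + 1 - 4 * (k / 4) : ℕ) : ℝ))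
      = ((4 * k + 4 - k / 4 : ℕ) : ℝ) := by
    rw [Nat.cast_sub (by omega), Nat.cast_sub (by omega)]
    push_cast
    ring
  rw [e] at hE
  refine ⟨H, ?_, hE⟩
  refine lt_of_lt_of_le ?_ hH
  have : 2 * k < 8 * (k / 4) + 2 * (k + 1 - 4 * (k / 4)) := by omega
  exact_mod_cast this

end Pool.Agent.H7R2.LG
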