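import Pool.Agent.H7R2.LG.Defs

set_option autoImplicit false

/-! Task A2a: the matrix of `τ` (helper311). -/

namespace Pool.Agent.H7R2.LG

open Matrix Polynomial

section A2a
variable {R : Type*} [CommRing R] {d : ℕ}

theorem A2a_mul_succ (x : R) (M : Matrix (Fin (d + 1)) (Fin (d + 1)) R) (i : Fin (d + 1))
    (j : Fin d) : (M * Pm d x) i j.succ = M i j.castSucc := by
  rw [Matrix.mul_apply, Finset.sum_eq_single j.castSucc]
  · simp [Pm]
  · intro b _ hb
    have h1 : ¬ ((b : ℕ) + 1 = ((j.succ : Fin (d + 1)) : ℕ)) := by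
      intro h; apply hb; ext; simp at h ⊢; exact h
    have h2 : ¬ ((b : ℕ) = d ∧ ((j.succ : Fin (d + 1)) : ℕ) = 0) := by
      simp
    simp only [Pm, Matrix.of_apply, if_neg h1, if_neg h2, mul_zero]
  · simp

theorem A2a_mul_zero (x : R) (M : Matrix (Fin (d + 1)) (Fin (d + 1)) R) (i : Fin (d + 1)) :
    (M * Pm d x) i 0 = M i (Fin.last d) * x := by
  rw [Matrix.mul_apply, Finset.sum_eq_single (Fin.last d)]
  · simp [Pm]
  · intro b _ hb
    have h1 : ¬ ((b : ℕ) + 1 = ((0 : Fin (d + 1)) : ℕ)) := by simp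
    have h2 : ¬ ((b : ℕ) = d ∧ ((0 : Fin (d + 1)) : ℕ) = 0) := by
      rintro ⟨h, -⟩; apply hb; ext; simpa using h
    simp only [Pm, Matrix.of_apply, if_neg h1, if_neg h2, mul_zero]
  · simp

theorem A2a_castSucc_mul (x : R) (M : Matrix (Fin (d + 1)) (Fin (d + 1)) R) (i : Fin d)
    (j : Fin (d + 1)) : (Pm d x * M) i.castSucc j = M i.succ j := by
  rw [Matrix.mul_apply, Finset.sum_eq_single i.succ]
  · simp [Pm]
  · intro b _ hb
    have h1 : ¬ (((i.castSucc : Fin (d + 1)) : ℕ) + 1 = (b : ℕ)) := by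
      intro h; apply hb; ext; simp at h ⊢; exact h.symm
    have h2 : ¬ (((i.castSucc : Fin (d + 1)) : ℕ) = d ∧ (b : ℕ) = 0) := by
      rintro ⟨h, -⟩; have := i.2; simp at h; omega
    simp only [Pm, Matrix.of_apply, if_neg h1, if_neg h2, zero_mul]
  · simp

theorem A2a_last_mul (x : R) (M : Matrix (Fin (d + 1)) (Fin (d + 1)) R) (j : Fin (d + 1)) :
    (Pm d x * M) (Fin.last d) j = x * M 0 j := by
  rw [Matrix.mul_apply, Finset.sum_eq_single 0]
  · simp [Pm]
  · intro b _ hb
    have h1 : ¬ (((Fin.last d : Fin (d + 1)) : ℕ) + 1 = (b : ℕ)) := by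
      have := b.2; simp; omega
    have h2 : ¬ (((Fin.last d : Fin (d + 1)) : ℕ) = d ∧ (b : ℕ) = 0) := by
      rintro ⟨-, h⟩; apply hb; ext; simpa using h
    simp only [Pm, Matrix.of_apply, if_neg h1, if_neg h2, zero_mul]
  · simp

theorem A2a_pow (x : R) (k : ℕ) (hk : k ≤ d + 1) (i j : Fin (d + 1)) :
    ((Pm d x) ^ k) i j = if (i : ℕ) + k = j then 1 else if (i : ℕ) + k = j + (d + 1) then x
      else 0 := by
  induction k generalizing i j with
  | zero =>
    rw [pow_zero, Matrix.one_apply]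
    have := i.2
    by_cases h : i = j
    · simp [h]
    · have h1 : ¬ ((i : ℕ) + 0 = j) := by intro h'; apply h; ext; simpa using h'
      have h2 : ¬ ((i : ℕ) + 0 = j + (d + 1)) := by omega
      rw [if_neg h, if_neg h1, if_neg h2]
  | succ k ih =>
    rw [pow_succ]
    have hi := i.2
    rcases Fin.eq_zero_or_eq_succ j with rfl | ⟨j', rfl⟩
    · rw [A2a_mul_zero, ih (by omega)]
      simp only [Fin.val_last, Fin.val_zero]
      by_cases h : (i : ℕ) + k = d
      · have h1 : ¬ ((i : ℕ) + (k + 1) = 0) := by omega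
        have h2 : (i : ℕ) + (k + 1) = 0 + (d + 1) := by omega
        rw [if_pos h, if_neg h1, if_pos h2, one_mul]
      · have h1 : ¬ ((i : ℕ) + (k + 1) = 0) := by omega
        have h2 : ¬ ((i : ℕ) + (k + 1) = 0 + (d + 1)) := by omega
        have h3 : ¬ ((i : ℕ) + k = d + (d + 1)) := by omega
        rw [if_neg h, if_neg h3, if_neg h1, if_neg h2, zero_mul]
    · rw [A2a_mul_succ, ih (by omega)]
      simp only [Fin.val_castSucc, Fin.val_succ]
      have e1 : ((i : ℕ) + k = j') = ((i : ℕ) + (k + 1) = (j' : ℕ) + 1) := by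
        apply propext; omega
      have e2 : ((i : ℕ) + k = j' + (d + 1)) = ((i : ℕ) + (k + 1) = (j' : ℕ) + 1 + (d + 1)) := by
        apply propext; omega
      simp only [e1, e2]

end A2a

theorem pm_pow {R : Type*} [CommRing R] (d : ℕ) (x : R) :
    (Pm d x) ^ (d + 1) = x • (1 : Matrix (Fin (d + 1)) (Fin (d + 1)) R) := by
  ext i j
  rw [A2a_pow x (d + 1) le_rfl, Matrix.smul_apply, Matrix.one_apply]
  have hj := j.2
  by_cases h : i = j
  · have h1 : ¬ ((i : ℕ) + (d + 1) = j) := by omega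
    rw [if_neg h1, if_pos h, if_pos (by rw [h])]; simp
  · have h1 : ¬ ((i : ℕ) + (d + 1) = j) := by omega
    have h2 : ¬ ((i : ℕ) + (d + 1) = j + (d + 1)) := by
      intro h'; apply h; ext; omega
    rw [if_neg h1, if_neg h2, if_neg h]; simp

theorem pm_det {R : Type*} [CommRing R] (d : ℕ) (x : R) :
    (Pm d x).det = (-1) ^ d * x := by
  rw [Matrix.det_succ_column_zero, Finset.sum_eq_single (Fin.last d)]
  · have h1 : (Pm d x).submatrix (Fin.last d).succAbove Fin.succ = 1 := by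
      ext i j
      rw [Matrix.submatrix_apply, Fin.succAbove_last, Matrix.one_apply]
      have hi := i.2
      by_cases h : i = j
      · subst h; simp [Pm]
      · have h1 : ¬ (((i.castSucc : Fin (d + 1)) : ℕ) + 1 = ((j.succ : Fin (d + 1)) : ℕ)) := by
          intro h'; apply h; ext; simp at h'; exact h'
        have h2 : ¬ (((i.castSucc : Fin (d + 1)) : ℕ) = d ∧ ((j.succ : Fin (d + 1)) : ℕ) = 0) := by
          simp
        simp only [Pm, Matrix.of_apply, if_neg h1, if_neg h2, if_neg h]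
    rw [h1, Matrix.det_one, mul_one]
    simp [Pm]
  · intro b _ hb
    have h1 : ¬ ((b : ℕ) + 1 = ((0 : Fin (d + 1)) : ℕ)) := by simp
    have h2 : ¬ ((b : ℕ) = d ∧ ((0 : Fin (d + 1)) : ℕ) = 0) := by
      rintro ⟨h, -⟩; apply hb; ext; simpa using h
    have h3 : Pm d x b 0 = 0 := by simp only [Pm, Matrix.of_apply, if_neg h1, if_neg h2]
    rw [h3]; simp
  · simp

theorem A2a_map {R : Type*} [CommRing R] (d : ℕ) (s : R →+* R) (x : R) (hs : s x = x) :
    (Pm d x).map s = Pm d x := by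
  ext i j
  simp only [Matrix.map_apply, Pm, Matrix.of_apply]
  split_ifs <;> simp [hs]

theorem pm_inO {R : Type*} [CommRing R] (d : ℕ) (s : R →+* R) (x : R) (hs : s x = x) :
    InO s x (Pm d x) := by
  unfold InO
  rw [A2a_map d s x hs]

/-- coefficients are in the algebra -/
theorem dm_inO {R : Type*} [CommRing R] (d : ℕ) (s : R →+* R) (x : R) (a : R)
    (ha : s^[d + 1] a = a) : InO s x (Dm d s a) := by
  unfold InO Dm
  rw [Matrix.diagonal_map (map_zero s)]
  ext i j
  rw [Matrix.mul_diagonal, Matrix.diagonal_mul]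
  simp only [Pm, Matrix.of_apply]
  by_cases h1 : (i : ℕ) + 1 = j
  · rw [if_pos h1, one_mul, mul_one, ← h1, Function.iterate_succ_apply']
  · rw [if_neg h1]
    by_cases h2 : (i : ℕ) = d ∧ (j : ℕ) = 0
    · rw [if_pos h2, h2.1, h2.2, ← Function.iterate_succ_apply' s d a, ha, mul_comm]
      rfl
    · rw [if_neg h2, zero_mul, mul_zero]

/-- commutation with powers of `τ` -/
theorem inO_pow {R : Type*} [CommRing R] {d : ℕ} {s : R →+* R} {x : R} (hs : s x = x)
    {M : Matrix (Fin (d + 1)) (Fin (d + 1)) R} (hM : InO s x M) (m : ℕ) :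
    ∃ M' : Matrix (Fin (d + 1)) (Fin (d + 1)) R, InO s x M' ∧ Pm d x ^ m * M = M' * Pm d x ^ m := by
  induction m with
  | zero => exact ⟨M, hM, by simp⟩
  | succ m ih =>
    obtain ⟨M', h1, h2⟩ := ih
    refine ⟨M'.map s, ?_, ?_⟩
    · have h3 := congrArg (fun N => N.map s) h1
      simp only [Matrix.map_mul, A2a_map d s x hs] at h3
      exact h3
    · rw [pow_succ', Matrix.mul_assoc, h2, ← Matrix.mul_assoc, h1, Matrix.mul_assoc]

end Pool.Agent.H7R2.LG
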