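import Pool.Agent.H7R2.LG.Defs
import Pool.Agent.H7R2.LG.Pm

set_option autoImplicit false

/-! Task A2b: the order `𝒪` (helper311). -/

namespace Pool.Agent.H7R2.LG

open Matrix Polynomial

section A2b
variable {R : Type*} [CommRing R] {d : ℕ} {s : R →+* R} {x : R}
  {M : Matrix (Fin (d + 1)) (Fin (d + 1)) R}

theorem A2b_succ_succ (hM : InO s x M) (i j : Fin d) :
    M i.succ j.succ = s (M i.castSucc j.castSucc) := by
  have h := congrFun (congrFun hM i.castSucc) j.succ
  rw [A2a_castSucc_mul, A2a_mul_succ, Matrix.map_apply] at h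
  exact h

theorem A2b_succ_zero (hM : InO s x M) (i : Fin d) :
    M i.succ 0 = s (M i.castSucc (Fin.last d)) * x := by
  have h := congrFun (congrFun hM i.castSucc) 0
  rw [A2a_castSucc_mul, A2a_mul_zero, Matrix.map_apply] at h
  exact h

end A2b

/-- the diagonal at `x = 0` -/
theorem inO_diag {R : Type*} [CommRing R] {K : Type*} [Field K] {d : ℕ} {s : R →+* R} {x : R}
    (σ : K →+* K) (ev : R →+* K) (hx : ev x = 0) (hev : ∀ r, ev (s r) = σ (ev r))
    {M : Matrix (Fin (d + 1)) (Fin (d + 1)) R} (hM : InO s x M) (i : Fin (d + 1)) :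
    ev (M i i) = σ^[(i : ℕ)] (ev (M 0 0)) := by
  induction i using Fin.induction with
  | zero => rfl
  | succ i ih =>
    rw [A2b_succ_succ hM, hev, ih, Fin.val_castSucc, Fin.val_succ, Function.iterate_succ_apply']

/-- strictly below the diagonal everything is divisible by `x` -/
theorem inO_lower {R : Type*} [CommRing R] {d : ℕ} {s : R →+* R} {x : R} (hs : s x = x)
    {M : Matrix (Fin (d + 1)) (Fin (d + 1)) R} (hM : InO s x M) (i j : Fin (d + 1)) (h : j < i) :
    x ∣ M i j := by
  induction j using Fin.induction generalizing i with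
  | zero =>
    rcases Fin.eq_zero_or_eq_succ i with rfl | ⟨i', rfl⟩
    · exact absurd h (lt_irrefl _)
    · rw [A2b_succ_zero hM]; exact dvd_mul_left _ _
  | succ j ih =>
    rcases Fin.eq_zero_or_eq_succ i with rfl | ⟨i', rfl⟩
    · exact absurd h (Fin.not_lt_zero _)
    · rw [A2b_succ_succ hM]
      have h1 := ih i'.castSucc (by
        rw [Fin.succ_lt_succ_iff] at h
        exact Fin.castSucc_lt_castSucc_iff.2 h)
      have h2 := map_dvd s h1
      rwa [hs] at h2

/-- `det M` at `x = 0` -/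
theorem inO_det {R : Type*} [CommRing R] {K : Type*} [Field K] {d : ℕ} {s : R →+* R} {x : R}
    (σ : K →+* K) (ev : R →+* K) (hs : s x = x) (hx : ev x = 0) (hev : ∀ r, ev (s r) = σ (ev r))
    {M : Matrix (Fin (d + 1)) (Fin (d + 1)) R} (hM : InO s x M) :
    ev M.det = ∏ j ∈ Finset.range (d + 1), σ^[j] (ev (M 0 0)) := by
  rw [RingHom.map_det, RingHom.mapMatrix_apply, Matrix.det_of_upperTriangular]
  · rw [← Fin.prod_univ_eq_prod_range (fun j => σ^[j] (ev (M 0 0))) (d + 1)]
    refine Finset.prod_congr rfl fun i _ => ?_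
    rw [Matrix.map_apply, inO_diag σ ev hx hev hM]
  · intro i j hij
    obtain ⟨c, hc⟩ := inO_lower hs hM i j hij
    rw [Matrix.map_apply, hc, map_mul, hx, zero_mul]

/-- the trace at `x = 0` -/
theorem inO_trace {R : Type*} [CommRing R] {K : Type*} [Field K] {d : ℕ} {s : R →+* R} {x : R}
    (σ : K →+* K) (ev : R →+* K) (hs : s x = x) (hx : ev x = 0) (hev : ∀ r, ev (s r) = σ (ev r))
    {M : Matrix (Fin (d + 1)) (Fin (d + 1)) R} (hM : InO s x M) :
    ev M.trace = ∑ j ∈ Finset.range (d + 1), σ^[j] (ev (M 0 0)) := by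
  rw [Matrix.trace, map_sum, ← Fin.sum_univ_eq_sum_range (fun j => σ^[j] (ev (M 0 0))) (d + 1)]
  refine Finset.sum_congr rfl fun i _ => ?_
  rw [Matrix.diag_apply, inO_diag σ ev hx hev hM]

/-- division by `τ` on the right -/
theorem inO_descent {R : Type*} [CommRing R] [IsDomain R] {d : ℕ} {s : R →+* R} {x : R}
    (hs : s x = x) (hx : x ≠ 0)
    {M : Matrix (Fin (d + 1)) (Fin (d + 1)) R} (hM : InO s x M) (h : x ∣ M 0 0) :
    ∃ N : Matrix (Fin (d + 1)) (Fin (d + 1)) R, InO s x N ∧ M = N * Pm d x := by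
  have h1 : ∀ i : Fin (d + 1), x ∣ M i 0 := by
    intro i
    rcases Fin.eq_zero_or_eq_succ i with rfl | ⟨i', rfl⟩
    · exact h
    · exact inO_lower hs hM _ _ (Fin.succ_pos i')
  choose c hc using h1
  let N : Matrix (Fin (d + 1)) (Fin (d + 1)) R :=
    Matrix.of fun i => Fin.lastCases (motive := fun _ => R) (c i) (fun j => M i j.succ)
  have hN : M = N * Pm d x := by
    ext i j
    rcases Fin.eq_zero_or_eq_succ j with rfl | ⟨j', rfl⟩
    · rw [A2a_mul_zero, hc i, mul_comm]
      simp [N]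
    · rw [A2a_mul_succ]
      simp [N]
  refine ⟨N, ?_, hN⟩
  have hMm : M.map s = N.map s * Pm d x := by
    conv_lhs => rw [hN]
    rw [Matrix.map_mul, A2a_map d s x hs]
  have h2 : (Pm d x * N) * Pm d x = (N.map s * Pm d x) * Pm d x := by
    rw [Matrix.mul_assoc, ← hN, ← hMm]; exact hM
  have h3 : (Pm d x * N) * Pm d x ^ (d + 1) = (N.map s * Pm d x) * Pm d x ^ (d + 1) := by
    rw [pow_succ', ← Matrix.mul_assoc, h2, Matrix.mul_assoc]
  rw [pm_pow, Matrix.mul_smul, Matrix.mul_smul, Matrix.mul_one, Matrix.mul_one] at h3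
  unfold InO
  ext i j
  have h4 := congrFun (congrFun h3 i) j
  rw [Matrix.smul_apply, Matrix.smul_apply, smul_eq_mul, smul_eq_mul] at h4
  exact mul_left_cancel₀ hx h4

/-- the division property -/
theorem inO_division {K : Type*} [Field K] {d : ℕ} (σ : K →+* K)
    {M : Matrix (Fin (d + 1)) (Fin (d + 1)) K[X]} (hM : InO (mapRingHom σ) X M)
    (h : M.det = 0) : M = 0 := by
  have hs : mapRingHom σ (X : K[X]) = X := by simp
  have key : ∀ n : ℕ, ∃ N : Matrix (Fin (d + 1)) (Fin (d + 1)) K[X],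
      InO (mapRingHom σ) X N ∧ N.det = 0 ∧ M = N * Pm d X ^ n := by
    intro n
    induction n with
    | zero => exact ⟨M, hM, h, by simp⟩
    | succ n ih =>
      obtain ⟨N, h1, h2, h3⟩ := ih
      have h4 := inO_det σ (constantCoeff : K[X] →+* K) hs (by simp)
        (by intro r; simp [Polynomial.constantCoeff_apply]) h1
      rw [h2, map_zero] at h4
      obtain ⟨j, -, hj⟩ := Finset.prod_eq_zero_iff.1 h4.symm
      have h5 : (constantCoeff : K[X] →+* K) (N 0 0) = 0 := by
        have hinj : Function.Injective (σ^[j]) := σ.injective.iterate j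
        apply hinj
        rw [hj]
        exact (iterate_map_zero σ j).symm
      have h6 : (X : K[X]) ∣ N 0 0 := by
        rw [Polynomial.X_dvd_iff]; simpa [Polynomial.constantCoeff_apply] using h5
      obtain ⟨N', h7, h8⟩ := inO_descent hs X_ne_zero h1 h6
      refine ⟨N', h7, ?_, ?_⟩
      · rw [h8, Matrix.det_mul, pm_det] at h2
        rcases mul_eq_zero.1 h2 with h9 | h9
        · exact h9
        · exfalso
          rcases mul_eq_zero.1 h9 with h10 | h10
          · exact pow_ne_zero d (neg_ne_zero.2 one_ne_zero) h10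
          · exact X_ne_zero h10
      · rw [h3, h8, Matrix.mul_assoc, pow_succ']
  ext i j n
  obtain ⟨N, -, -, h3⟩ := key ((d + 1) * (n + 1))
  rw [pow_mul, pm_pow, _root_.smul_pow, one_pow, Matrix.mul_smul, Matrix.mul_one] at h3
  rw [h3, Matrix.smul_apply, smul_eq_mul, Matrix.zero_apply, Polynomial.coeff_zero]
  exact (Polynomial.X_pow_dvd_iff.1 (dvd_mul_right _ _)) n (Nat.lt_succ_self n)

end Pool.Agent.H7R2.LG
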