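import Pool.Agent.H7R2.LG.Defs
import Pool.Agent.H7R2.LG.Pm
import Pool.Agent.H7R2.LG.GirthA
import Pool.Agent.H7R2.LG.GroupB
import Pool.Agent.H7R2.LG.GraphC

set_option autoImplicit false

/-! Task AB (helper267): gluing of the girth argument, the finite quotient groups and the
graph of a group. -/

namespace Pool.Agent.H7R2.LG

open Matrix Polynomial

/-- `K[X] → K⟦X⟧`. -/
noncomputable def AB_cs (K : Type) [Field K] : K[X] →+* PowerSeries K :=
  Polynomial.coeToPowerSeries.ringHom

theorem AB_cs_apply {K : Type} [Field K] (p : K[X]) : AB_cs K p = (p : PowerSeries K) := rfl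

theorem AB_cs_X {K : Type} [Field K] : AB_cs K X = PowerSeries.X := by
  simp [AB_cs_apply]

theorem AB_cs_map {K : Type} [Field K] (σ : K →+* K) (p : K[X]) :
    AB_cs K (mapRingHom σ p) = PowerSeries.map σ (AB_cs K p) := by
  ext n
  simp [AB_cs_apply]

theorem AB_pm_map {R S : Type*} [CommRing R] [CommRing S] (f : R →+* S) (d : ℕ) (x : R) :
    (Pm d x).map f = Pm d (f x) := by
  ext i j
  simp only [Pm, Matrix.map_apply, Matrix.of_apply]
  split_ifs <;> simp

theorem AB_inO {K : Type} [Field K] {d : ℕ} (σ : K →+* K)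
    {M : Matrix (Fin (d + 1)) (Fin (d + 1)) K[X]} (hM : InO (mapRingHom σ) X M) :
    InO (PowerSeries.map σ) (PowerSeries.X : PowerSeries K) (M.map (AB_cs K)) := by
  have h := congrArg (fun Z => Z.map (AB_cs K)) hM
  simp only [Matrix.map_mul] at h
  rw [AB_pm_map, AB_cs_X] at h
  unfold InO
  rw [h]
  congr 1
  ext i j
  simp only [Matrix.map_apply]
  rw [AB_cs_map]

theorem AB_isUnit {K : Type} [Field K] (c ε : K) (hc : c ≠ 0) :
    IsUnit (AB_cs K (C c * (1 - C ε * X))) := by
  rw [PowerSeries.isUnit_iff_constantCoeff]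
  simp [AB_cs_apply, hc]

/-- `det A * A⁻¹ = adj A` for units. -/
theorem AB_adj {n : Type*} [Fintype n] [DecidableEq n] {S : Type*} [CommRing S]
    (g : GL n S) :
    (g : Matrix n n S).det • ((g⁻¹ : GL n S) : Matrix n n S) = (g : Matrix n n S).adjugate := by
  have h1 : (g : Matrix n n S) * ((g⁻¹ : GL n S) : Matrix n n S) = 1 := by
    rw [← Units.val_mul]; simp
  calc (g : Matrix n n S).det • ((g⁻¹ : GL n S) : Matrix n n S)
      = ((g : Matrix n n S).adjugate * (g : Matrix n n S)) * ((g⁻¹ : GL n S) : Matrix n n S) := by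
        rw [Matrix.adjugate_mul, Matrix.smul_mul, Matrix.one_mul]
    _ = _ := by rw [Matrix.mul_assoc, h1, Matrix.mul_one]

theorem AB_dvd {K : Type} [Field K] (p : K[X]) (m : ℕ)
    (h : (PowerSeries.X : PowerSeries K) ^ m ∣ AB_cs K p) : (X : K[X]) ^ m ∣ p := by
  rw [Polynomial.X_pow_dvd_iff]
  rw [PowerSeries.X_pow_dvd_iff] at h
  intro k hk
  have := h k hk
  rwa [AB_cs_apply, Polynomial.coeff_coe] at this

theorem graphD {K : Type} [Field K] [Finite K] {d : ℕ} {ι : Type} [Fintype ι] [DecidableEq ι]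
    (D : Datum K d ι) (μ : Subgroup Kˣ) (hμ : ∀ i j, ∃ u ∈ μ, D.c i = (u : K) * D.c j)
    (m : ℕ) (hm : 1 ≤ m) :
    ∃ (V : Type) (_ : Fintype V) (_ : Nonempty V) (Γ : SimpleGraph V) (_ : DecidableRel Γ.Adj),
      Γ.IsRegularOfDegree (Fintype.card ι) ∧ ((4 * m : ℕ) : ℕ∞) ≤ Γ.egirth ∧ Γ.Colorable 2 ∧
      Fintype.card V ≤ 2 * bnd d D.σ μ m := by
  obtain ⟨G, hG, hGf, f, hcard, hf⟩ := grpB d D.σ μ m
  -- the letters
  obtain ⟨t, ht⟩ : ∃ t : ι → G, ∀ L : List (ι × ι), Red L → L ≠ [] → L.length < 2 * m →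
      (L.map fun p => t p.1 * (t p.2)⁻¹).prod ≠ 1 := by
    rcases isEmpty_or_nonempty ι with hι | ⟨⟨i0⟩⟩
    · refine ⟨fun i => (hι.false i).elim, fun L _ hne _ => ?_⟩
      obtain ⟨p, hp⟩ := List.exists_mem_of_ne_nil L hne
      exact (hι.false p.1).elim
    · have hdet : ∀ i, ((D.T i).map (AB_cs K)).det = AB_cs K (C (D.c i) * (1 - C D.ε * X)) := by
        intro i
        rw [← D.hdet i, RingHom.map_det, RingHom.mapMatrix_apply]
      have hu : ∀ i, IsUnit ((D.T i).map (AB_cs K)).det := fun i => by
        rw [hdet]; exact AB_isUnit _ _ (D.hc i)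
      obtain ⟨g, hg⟩ : ∃ g : ι → GL (Fin (d + 1)) (PowerSeries K),
          ∀ i, (g i : Matrix (Fin (d + 1)) (Fin (d + 1)) (PowerSeries K)) =
            (D.T i).map (AB_cs K) :=
        ⟨fun i => Matrix.GeneralLinearGroup.mk'' _ (hu i), fun i => rfl⟩
      have hg1 : ∀ i, (g i : Matrix (Fin (d + 1)) (Fin (d + 1)) (PowerSeries K)) *
          ((g i)⁻¹ : GL (Fin (d + 1)) (PowerSeries K)) = 1 := fun i => by
        rw [← Units.val_mul]; simp
      have hg2 : ∀ i, (((g i)⁻¹ : GL (Fin (d + 1)) (PowerSeries K)) :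
          Matrix (Fin (d + 1)) (Fin (d + 1)) (PowerSeries K)) * g i = 1 := fun i => by
        rw [← Units.val_mul]; simp
      have hmem : ∀ i, g i * (g i0)⁻¹ ∈ Gs d D.σ μ := by
        intro i
        refine ⟨?_, ?_⟩
        · rw [Units.val_mul]
          refine InO.mul ?_ ?_
          · rw [hg]; exact AB_inO _ (D.hT i)
          · have h0 : InO (PowerSeries.map D.σ) (PowerSeries.X : PowerSeries K)
                (g i0 : Matrix (Fin (d + 1)) (Fin (d + 1)) (PowerSeries K)) := by
              rw [hg]; exact AB_inO _ (D.hT i0)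
            exact h0.inv (hg1 i0) (hg2 i0)
        · obtain ⟨u, hu1, hu2⟩ := hμ i i0
          refine ⟨u, hu1, ?_⟩
          have h2 := congrArg Matrix.det (hg1 i0)
          rw [Matrix.det_mul, Matrix.det_one] at h2
          have h3 : (g i : Matrix (Fin (d + 1)) (Fin (d + 1)) (PowerSeries K)).det =
              PowerSeries.C (u : K) *
                (g i0 : Matrix (Fin (d + 1)) (Fin (d + 1)) (PowerSeries K)).det := by
            rw [hg, hg, hdet, hdet, hu2, AB_cs_apply, AB_cs_apply]
            push_cast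
            rw [map_mul]
            ring
          rw [Units.val_mul, Matrix.det_mul, h3, mul_assoc, h2, mul_one]
      obtain ⟨s, hs⟩ : ∃ s : ι → Gs d D.σ μ, ∀ i, (Gs d D.σ μ).subtype (s i) = g i * (g i0)⁻¹ :=
        ⟨fun i => ⟨g i * (g i0)⁻¹, hmem i⟩, fun i => rfl⟩
      refine ⟨fun i => f (s i), fun L hL hne hlen hprod => ?_⟩
      -- the product in `Gs`
      obtain ⟨M, hM1⟩ : ∃ M : Gs d D.σ μ, M = (L.map fun p => s p.1 * (s p.2)⁻¹).prod :=
        ⟨_, rfl⟩
      have hM : f M = 1 := by
        rw [← hprod, hM1, map_list_prod, List.map_map]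
        refine congrArg List.prod (List.map_congr_left fun p _ => ?_)
        rw [Function.comp_apply, map_mul, map_inv]
      obtain ⟨N, hN⟩ := hf M hM
      have hMv : (M : GL (Fin (d + 1)) (PowerSeries K)) =
          (L.map fun p => g p.1 * (g p.2)⁻¹).prod := by
        have h1 : (M : GL (Fin (d + 1)) (PowerSeries K)) = (Gs d D.σ μ).subtype M := rfl
        rw [h1, hM1, map_list_prod, List.map_map]
        refine congrArg List.prod (List.map_congr_left fun p _ => ?_)
        rw [Function.comp_apply, map_mul, map_inv, hs, hs]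
        group
      -- clearing denominators
      have key : ∀ L : List (ι × ι), AB_cs K ((L.map fun p => (D.T p.2).det).prod) •
          (((L.map fun p => g p.1 * (g p.2)⁻¹).prod : GL (Fin (d + 1)) (PowerSeries K)) :
            Matrix (Fin (d + 1)) (Fin (d + 1)) (PowerSeries K)) =
          (L.map fun p => D.T p.1 * (D.T p.2).adjugate).prod.map (AB_cs K) := by
        intro L
        induction L with
        | nil =>
          simp only [List.map_nil, List.prod_nil, map_one, Units.val_one, one_smul]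
          rw [Matrix.map_one _ (map_zero _) (map_one _)]
        | cons p L ih =>
          simp only [List.map_cons, List.prod_cons, map_mul, Units.val_mul]
          rw [Matrix.map_mul, ← ih]
          have h1 : AB_cs K (D.T p.2).det •
              (((g p.2)⁻¹ : GL (Fin (d + 1)) (PowerSeries K)) :
                Matrix (Fin (d + 1)) (Fin (d + 1)) (PowerSeries K)) =
              (D.T p.2).adjugate.map (AB_cs K) := by
            have h2 := AB_adj (g p.2)
            rw [hg] at h2
            have h3 : ((D.T p.2).map (AB_cs K)).det = AB_cs K (D.T p.2).det := by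
              rw [RingHom.map_det, RingHom.mapMatrix_apply]
            have h4 : ((D.T p.2).map (AB_cs K)).adjugate = (D.T p.2).adjugate.map (AB_cs K) := by
              have := RingHom.map_adjugate (AB_cs K) (D.T p.2)
              simpa only [RingHom.mapMatrix_apply] using this.symm
            rw [← h4, ← h2, h3]
          rw [Matrix.map_mul, ← h1, hg]
          simp only [Matrix.smul_mul, Matrix.mul_smul, smul_smul]
          rw [mul_comm]
      have hkey := key L
      rw [← hMv] at hkey
      refine absurd (girthA D L hL hne m ?_) (by omega)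
      apply AB_dvd
      rw [RingHom.map_det, RingHom.mapMatrix_apply]
      have h5 : (((L.map fun p => (D.T p.2).det).prod •
          (1 : Matrix (Fin (d + 1)) (Fin (d + 1)) K[X]) -
          (L.map fun p => D.T p.1 * (D.T p.2).adjugate).prod).map (AB_cs K)) =
          (-(AB_cs K ((L.map fun p => (D.T p.2).det).prod) • N)) *
            (Pm d (PowerSeries.X : PowerSeries K)) ^ m := by
        rw [Matrix.neg_mul, Matrix.smul_mul, ← hN, smul_sub, hkey]
        ext i j
        simp only [Matrix.map_apply, Matrix.sub_apply, Matrix.neg_apply, Matrix.smul_apply,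
          smul_eq_mul, map_sub, map_mul]
        by_cases hij : i = j
        · subst hij; simp
        · simp [Matrix.one_apply_ne hij]
      rw [h5, Matrix.det_mul, Matrix.det_pow, pm_det, mul_pow]
      exact Dvd.dvd.mul_left (Dvd.intro_left _ rfl) _
  obtain ⟨V, hV, Γ, hdec, hreg, hgi, hcol, hVc⟩ := graphC t (2 * m) (by omega) ht
  refine ⟨V, hV, ?_, Γ, hdec, hreg, ?_, hcol, ?_⟩
  · rw [← Fintype.card_pos_iff, hVc]
    have : 0 < Nat.card G := Nat.card_pos
    omega
  · rw [show 4 * m = 2 * (2 * m) by ring]; exact hgi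
  · rw [hVc]; exact Nat.mul_le_mul_left _ hcard

end Pool.Agent.H7R2.LG
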